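import Pool.Agent.Helper281.Sc.LN

/-!
# Borel choices on the classes of a finite Borel equivalence relation
-/

set_option autoImplicit false

namespace Run7.h932

open Set MeasureTheory

variable {X : Type} [MeasurableSpace X] [StandardBorelSpace X]

/-- Borel enumeration of the sections of a Borel relation with countable sections. -/
theorem sec_enum (R : X → X → Prop) (hm : MeasurableSet {p : X × X | R p.1 p.2})
    (hc : ∀ x, {y | R x y}.Countable) :
    ∃ δ : ℕ → X → X, (∀ n, Measurable (δ n)) ∧ ∀ x y, R x y → ∃ n, δ n x = y := by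
  classical
  let := upgradeStandardBorel X
  obtain ⟨G, hG1, hG2, hG3⟩ := Pool.Agent.Helper281.LN.lusin_novikov hm hc
  refine ⟨fun n y => if h : ∃ y', (y, y') ∈ G n then h.choose else y, ?_, ?_⟩
  · intro n
    have hinj : InjOn (Prod.fst : X × X → X) (G n) := by
      rintro ⟨a, b⟩ h1 ⟨a', b'⟩ h2 hab
      simp only at hab
      subst hab
      rw [hG3 n _ _ _ h1 h2]
    intro B hB
    have e : (fun y => if h : ∃ y', (y, y') ∈ G n then h.choose else y) ⁻¹' B =
        (Prod.fst '' (G n ∩ Prod.snd ⁻¹' B)) ∪ (B \ (Prod.fst '' (G n))) := by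
      ext y
      simp only [mem_preimage]
      by_cases h : ∃ y', (y, y') ∈ G n
      · rw [dif_pos h]
        constructor
        · intro hh
          left
          exact ⟨(y, h.choose), ⟨h.choose_spec, hh⟩, rfl⟩
        · rintro (⟨⟨a, b⟩, ⟨h1, h2⟩, h3⟩ | ⟨h1, h2⟩)
          · simp only at h3
            subst h3
            rw [hG3 n _ _ _ h.choose_spec h1]
            exact h2
          · exfalso
            apply h2
            obtain ⟨y', hy'⟩ := h
            exact ⟨(y, y'), hy', rfl⟩
      · rw [dif_neg h]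
        constructor
        · intro hh
          right
          refine ⟨hh, ?_⟩
          rintro ⟨⟨a, b⟩, h1, h2⟩
          simp only at h2
          subst h2
          exact h ⟨b, h1⟩
        · rintro (⟨⟨a, b⟩, ⟨h1, h2⟩, h3⟩ | ⟨h1, h2⟩)
          · simp only at h3
            subst h3
            exact absurd ⟨b, h1⟩ h
          · exact h1
    rw [e]
    refine MeasurableSet.union ?_ (hB.diff ?_)
    · exact ((hG1 n).inter (measurable_snd hB)).image_of_measurable_injOn measurable_fst
        (hinj.mono inter_subset_left)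
    · exact (hG1 n).image_of_measurable_injOn measurable_fst hinj
  · intro y y' h
    have : (y, y') ∈ ⋃ n, G n := by rw [hG2]; exact h
    obtain ⟨n, hn⟩ := mem_iUnion.1 this
    refine ⟨n, ?_⟩
    have hex : ∃ y', (y, y') ∈ G n := ⟨y', hn⟩
    beta_reduce
    rw [dif_pos hex]
    exact hG3 n _ _ _ hex.choose_spec hn

theorem le_ncard_iff {S : Set X} (hS : S.Finite) (i : ℕ) :
    i ≤ S.ncard ↔ ∃ f : Fin i → X, Function.Injective f ∧ ∀ a, f a ∈ S := by
  classical
  constructor
  · intro h
    rw [ncard_eq_toFinset_card S hS] at h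
    obtain ⟨t, ht1, ht2⟩ := Finset.exists_subset_card_eq h
    refine ⟨fun a => (t.equivFin.symm (Fin.cast ht2.symm a)).1, ?_, ?_⟩
    · intro a b hab
      have := t.equivFin.symm.injective (Subtype.ext hab)
      exact Fin.cast_injective _ this
    · intro a
      have := ht1 (t.equivFin.symm (Fin.cast ht2.symm a)).2
      exact hS.mem_toFinset.1 this
  · rintro ⟨f, hf1, hf2⟩
    have h1 : range f ⊆ S := by rintro _ ⟨a, rfl⟩; exact hf2 a
    have h2 := ncard_le_ncard h1 hS
    have h3 : (range f).ncard = i := by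
      rw [← image_univ, ncard_image_of_injective _ hf1, ncard_univ]
      simp
    omega

omit [StandardBorelSpace X] in
theorem meas_rel {R : X → X → Prop} (hR : MeasurableSet {p : X × X | R p.1 p.2})
    {Y : Type} [MeasurableSpace Y] {f g : Y → X} (hf : Measurable f) (hg : Measurable g) :
    MeasurableSet {y | R (f y) (g y)} :=
  hR.preimage (hf.prodMk hg)

theorem meas_ne {Y : Type} [MeasurableSpace Y] {f g : Y → X} (hf : Measurable f)
    (hg : Measurable g) : MeasurableSet {y | f y ≠ g y} :=
  (measurableSet_eq_fun hf hg).compl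

/-- counting the points of a section -/
theorem ncard_meas {δ : ℕ → X → X} (hδ : ∀ n, Measurable (δ n)) {R : X → X → Prop}
    (hR : MeasurableSet {p : X × X | R p.1 p.2}) (hRδ : ∀ x y, R x y → ∃ n, δ n x = y)
    (hfin : ∀ x, {y | R x y}.Finite) : Measurable fun x => {y | R x y}.ncard := by
  refine measurable_of_Ici fun i => ?_
  have h1 : (fun x => {y | R x y}.ncard) ⁻¹' Ici i = ⋃ m : Fin i → ℕ,
      ((⋂ a, ⋂ b, {x | a ≠ b → δ (m a) x ≠ δ (m b) x}) ∩ ⋂ a, {x | R x (δ (m a) x)}) := by
    ext x
    simp only [mem_preimage, mem_Ici, mem_iUnion, mem_inter_iff, mem_iInter]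
    rw [le_ncard_iff (hfin x)]
    constructor
    · rintro ⟨f, hf1, hf2⟩
      choose m hm using fun a => hRδ x (f a) (hf2 a)
      refine ⟨m, ?_, ?_⟩
      · intro a b hab
        show δ (m a) x ≠ δ (m b) x
        rw [hm, hm]
        exact fun h => hab (hf1 h)
      · intro a
        show R x (δ (m a) x)
        rw [hm]
        exact hf2 a
    · rintro ⟨m, hm1, hm2⟩
      refine ⟨fun a => δ (m a) x, ?_, hm2⟩
      intro a b hab
      by_contra hne
      exact hm1 a b hne hab
  rw [h1]
  refine MeasurableSet.iUnion fun m => MeasurableSet.inter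
    (MeasurableSet.iInter fun a => MeasurableSet.iInter fun b => ?_)
    (MeasurableSet.iInter fun a => ?_)
  · by_cases hab : a = b
    · have : {x | a ≠ b → δ (m a) x ≠ δ (m b) x} = univ := by
        ext x; exact ⟨fun _ => trivial, fun _ h => absurd hab h⟩
      rw [this]; exact MeasurableSet.univ
    · have : {x | a ≠ b → δ (m a) x ≠ δ (m b) x} = {x | δ (m a) x ≠ δ (m b) x} := by
        ext x; exact ⟨fun h => h hab, fun h _ => h⟩
      rw [this]; exact meas_ne (hδ _) (hδ _)
  · exact meas_rel hR measurable_id (hδ _)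

/-- the existential projection along an enumeration -/
theorem ex_meas {δ : ℕ → X → X} (hδ : ∀ n, Measurable (δ n)) {R : X → X → Prop}
    (hR : MeasurableSet {p : X × X | R p.1 p.2}) (hRδ : ∀ x y, R x y → ∃ n, δ n x = y) :
    MeasurableSet {x | ∃ y, R x y} := by
  have h1 : {x | ∃ y, R x y} = ⋃ n, {x | R x (δ n x)} := by
    ext x
    simp only [mem_iUnion]
    constructor
    · rintro ⟨y, hy⟩
      obtain ⟨n, rfl⟩ := hRδ x y hy
      exact ⟨n, hy⟩
    · rintro ⟨n, hn⟩
      exact ⟨_, hn⟩
  rw [h1]
  exact MeasurableSet.iUnion fun n => meas_rel hR measurable_id (hδ _)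

section Cls

variable (E : X → X → Prop)

/-- the place of a point in its class -/
noncomputable def rk (y : X) : ℕ :=
  {z | E y z ∧ embeddingReal X z < embeddingReal X y}.ncard

/-- the size of a class -/
noncomputable def sz (y : X) : ℕ := {z | E y z}.ncard

variable {E}

theorem rk_lt (hE : Equivalence E) (hfin : ∀ x, {y | E x y}.Finite) (y : X) :
    rk E y < sz E y := by
  refine ncard_lt_ncard ?_ (hfin y)
  refine ⟨fun z hz => hz.1, fun h => ?_⟩
  have : y ∈ {z | E y z ∧ embeddingReal X z < embeddingReal X y} := h (hE.refl y)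
  exact lt_irrefl _ this.2

omit [StandardBorelSpace X] in
theorem cls_eq (hE : Equivalence E) {x y : X} (h : E x y) : {z | E x z} = {z | E y z} := by
  ext z
  exact ⟨fun h1 => hE.trans (hE.symm h) h1, fun h1 => hE.trans h h1⟩

theorem rk_inj (hE : Equivalence E) (hfin : ∀ x, {y | E x y}.Finite) {x y : X} (h : E x y)
    (h1 : rk E x = rk E y) : x = y := by
  have key : ∀ {x y : X}, E x y → embeddingReal X x < embeddingReal X y → rk E x < rk E y := by
    intro x y h hlt
    refine ncard_lt_ncard ?_ ((hfin y).subset fun z hz => hz.1)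
    refine ⟨fun z hz => ⟨hE.trans (hE.symm h) hz.1, hz.2.trans hlt⟩, fun h2 => ?_⟩
    have := h2 (⟨hE.symm h, hlt⟩ : E y x ∧ embeddingReal X x < embeddingReal X y)
    exact lt_irrefl _ this.2
  by_contra hne
  have hne' : embeddingReal X x ≠ embeddingReal X y := fun h2 =>
    hne ((measurableEmbedding_embeddingReal X).injective h2)
  rcases lt_or_gt_of_ne hne' with h2 | h2
  · have := key h h2; omega
  · have := key (hE.symm h) h2; omega

theorem rk_surj (hE : Equivalence E) (hfin : ∀ x, {y | E x y}.Finite) (x : X) {i : ℕ}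
    (hi : i < sz E x) : ∃ y, E x y ∧ rk E y = i := by
  classical
  have h1 : (hfin x).toFinset.image (rk E) ⊆ Finset.range (sz E x) := by
    intro j hj
    rw [Finset.mem_image] at hj
    obtain ⟨y, hy, rfl⟩ := hj
    have hy' : E x y := (hfin x).mem_toFinset.1 hy
    rw [Finset.mem_range]
    have := rk_lt hE hfin y
    unfold sz at this ⊢
    rwa [cls_eq hE hy']
  have h2 : ((hfin x).toFinset.image (rk E)).card = sz E x := by
    rw [Finset.card_image_of_injOn]
    · unfold sz
      rw [ncard_eq_toFinset_card _ (hfin x)]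
    · intro y hy z hz hyz
      have hy' : E x y := (hfin x).mem_toFinset.1 hy
      have hz' : E x z := (hfin x).mem_toFinset.1 hz
      exact rk_inj hE hfin (hE.trans (hE.symm hy') hz') hyz
  have h3 := Finset.eq_of_subset_of_card_le h1 (by rw [h2, Finset.card_range])
  have : i ∈ (hfin x).toFinset.image (rk E) := by rw [h3]; exact Finset.mem_range.2 hi
  obtain ⟨y, hy, hyi⟩ := Finset.mem_image.1 this
  exact ⟨y, (hfin x).mem_toFinset.1 hy, hyi⟩

/-- Borel choice of a local solution on the classes of a finite Borel equivalence relation. -/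
theorem BC {Θ : Type} [Countable Θ] [MeasurableSpace Θ] [MeasurableSingletonClass Θ]
    (hE : Equivalence E) (hm : MeasurableSet {p : X × X | E p.1 p.2})
    (hfin : ∀ x, {y | E x y}.Finite) (θ : X → X → Θ) (hθ : Measurable fun p : X × X => θ p.1 p.2)
    (Φ : (n : ℕ) → (Fin n → Fin n → Θ) → (Fin n → Fin n → ℕ) → Prop)
    (hΦ : ∀ (x : X) (n : ℕ) (e : Fin n → X), Function.Injective e → range e = {y | E x y} →
      ∃ s, Φ n (fun i j => θ (e i) (e j)) s) :
    ∃ s : X → X → ℕ, Measurable (fun p : X × X => s p.1 p.2) ∧ (∀ x y, ¬ E x y → s x y = 0) ∧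
      ∀ x, ∃ (n : ℕ) (e : Fin n → X), Function.Injective e ∧ range e = {y | E x y} ∧
        Φ n (fun i j => θ (e i) (e j)) (fun i j => s (e i) (e j)) := by
  classical
  obtain ⟨δ, hδm, hδ⟩ := sec_enum E hm (fun x => (hfin x).countable)
  have hszm : Measurable (sz E) := ncard_meas hδm hm hδ hfin
  have hRm : MeasurableSet {p : X × X | E p.1 p.2 ∧ embeddingReal X p.2 < embeddingReal X p.1} :=
    hm.inter (measurableSet_lt ((measurable_embeddingReal X).comp measurable_snd)
      ((measurable_embeddingReal X).comp measurable_fst))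
  have hrkm : Measurable (rk E) := by
    refine ncard_meas (R := fun y z => E y z ∧ embeddingReal X z < embeddingReal X y)
      hδm hRm (fun x y h => hδ x y h.1) (fun x => (hfin x).subset fun z hz => hz.1)
  -- the enumeration
  have hfind : ∀ (i : ℕ) (x : X), ∃ m, (E x (δ m x) ∧ rk E (δ m x) = i) ∨
      ∀ m, ¬ (E x (δ m x) ∧ rk E (δ m x) = i) := by
    intro i x
    by_cases h : ∃ m, E x (δ m x) ∧ rk E (δ m x) = i
    · obtain ⟨m, hm⟩ := h
      exact ⟨m, Or.inl hm⟩
    · push Not at h
      exact ⟨0, Or.inr fun m hm => h m hm.1 hm.2⟩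
  let en : ℕ → X → X := fun i x => δ (Nat.find (hfind i x)) x
  have hSm : ∀ i m, MeasurableSet {x | E x (δ m x) ∧ rk E (δ m x) = i} := by
    intro i m
    exact (meas_rel hm measurable_id (hδm m)).inter
      (measurableSet_eq_fun (hrkm.comp (hδm m)) measurable_const)
  have henm : ∀ i, Measurable (en i) := by
    intro i
    have h1 : Measurable fun x => Nat.find (hfind i x) := by
      refine measurable_find (hfind i) fun m => ?_
      have h2 : {x | (E x (δ m x) ∧ rk E (δ m x) = i) ∨
          ∀ m, ¬ (E x (δ m x) ∧ rk E (δ m x) = i)} =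
          {x | E x (δ m x) ∧ rk E (δ m x) = i} ∪
          ⋂ m, {x | E x (δ m x) ∧ rk E (δ m x) = i}ᶜ := by
        ext x
        simp [mem_iInter]
      rw [h2]
      exact (hSm i m).union (MeasurableSet.iInter fun m => (hSm i m).compl)
    have h3 : Measurable fun q : ℕ × X => δ q.1 q.2 :=
      measurable_from_prod_countable_right fun m => hδm m
    exact h3.comp (h1.prodMk measurable_id)
  have hen : ∀ i x, i < sz E x → E x (en i x) ∧ rk E (en i x) = i := by
    intro i x hi
    obtain ⟨y, hy1, hy2⟩ := rk_surj hE hfin x hi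
    obtain ⟨m, rfl⟩ := hδ x y hy1
    rcases Nat.find_spec (hfind i x) with h | h
    · exact h
    · exact absurd ⟨hy1, hy2⟩ (h m)
  have hen_eq : ∀ i x x', E x x' → i < sz E x → en i x = en i x' := by
    intro i x x' hxx hi
    have hi' : i < sz E x' := by unfold sz at hi ⊢; rwa [← cls_eq hE hxx]
    obtain ⟨h1, h2⟩ := hen i x hi
    obtain ⟨h3, h4⟩ := hen i x' hi'
    exact rk_inj hE hfin (hE.trans (hE.symm h1) (hE.trans hxx h3)) (h2.trans h4.symm)
  -- codes and solutions
  let code : (n : ℕ) → X → (Fin n → Fin n → Θ) := fun n x i j => θ (en i x) (en j x)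
  have hcode : ∀ n, Measurable (code n) := fun n =>
    measurable_pi_lambda _ fun i => measurable_pi_lambda _ fun j =>
      hθ.comp ((henm i).prodMk (henm j))
  let F : (n : ℕ) → (Fin n → Fin n → Θ) → (Fin n → Fin n → ℕ) := fun n c =>
    if h : ∃ s, Φ n c s then h.choose else fun _ _ => 0
  let val : (n : ℕ) → (Fin n → Fin n → Θ) × ℕ × ℕ → ℕ := fun n q =>
    if h : q.2.1 < n ∧ q.2.2 < n then F n q.1 ⟨q.2.1, h.1⟩ ⟨q.2.2, h.2⟩ else 0
  let sn : ℕ → X × X → ℕ := fun n p => val n (code n p.1, rk E p.1, rk E p.2)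
  have hsn : ∀ n, Measurable (sn n) := by
    intro n
    have hv : Measurable (val n) := Measurable.of_discrete
    exact hv.comp (((hcode n).comp measurable_fst).prodMk
      ((hrkm.comp measurable_fst).prodMk (hrkm.comp measurable_snd)))
  let s : X → X → ℕ := fun x y => if E x y then sn (sz E x) (x, y) else 0
  have hs : Measurable fun p : X × X => s p.1 p.2 := by
    refine Measurable.ite hm ?_ measurable_const
    have h3 : Measurable fun q : ℕ × (X × X) => sn q.1 q.2 :=
      measurable_from_prod_countable_right fun m => hsn m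
    exact h3.comp ((hszm.comp measurable_fst).prodMk measurable_id)
  refine ⟨s, hs, fun x y h => if_neg h, fun x => ?_⟩
  have hsz' : ∀ y, E x y → sz E y = sz E x := by
    intro y hy
    unfold sz
    rw [cls_eq hE hy]
  let e : Fin (sz E x) → X := fun i => en i x
  have he1 : Function.Injective e := by
    intro i j hij
    have h1 := (hen i x i.2).2
    have h2 := (hen j x j.2).2
    have : (i : ℕ) = j := by
      rw [← h1, ← h2]
      exact congrArg (rk E) hij
    exact Fin.ext this
  have he2 : range e = {y | E x y} := by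
    ext y
    constructor
    · rintro ⟨i, rfl⟩
      exact (hen i x i.2).1
    · intro hy
      have hy' : E x y := hy
      have h1 : rk E y < sz E x := by rw [← hsz' y hy']; exact rk_lt hE hfin y
      refine ⟨⟨rk E y, h1⟩, ?_⟩
      have h2 := hen (rk E y) x h1
      exact (rk_inj hE hfin (hE.trans (hE.symm h2.1) hy') h2.2)
  refine ⟨sz E x, e, he1, he2, ?_⟩
  have hex := hΦ x (sz E x) e he1 he2
  have h4 : (fun i j => s (e i) (e j)) = F (sz E x) (fun i j => θ (e i) (e j)) := by
    funext i j
    have hi := (hen i x i.2)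
    have hj := (hen j x j.2)
    have h5 : E (e i) (e j) := hE.trans (hE.symm hi.1) hj.1
    show (if E (e i) (e j) then sn (sz E (e i)) (e i, e j) else 0) = _
    rw [if_pos h5]
    have h6 : sz E (e i) = sz E x := hsz' _ hi.1
    rw [h6]
    show val (sz E x) (code (sz E x) (e i), rk E (e i), rk E (e j)) = _
    have h7 : code (sz E x) (e i) = fun i j => θ (e i) (e j) := by
      funext a b
      show θ (en a (e i)) (en b (e i)) = θ (en a x) (en b x)
      rw [← hen_eq a x (e i) hi.1 a.2, ← hen_eq b x (e i) hi.1 b.2]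
    have h8 : rk E (e i) = i := hi.2
    have h9 : rk E (e j) = j := hj.2
    rw [h7, h8, h9]
    show (if h : (i : ℕ) < sz E x ∧ (j : ℕ) < sz E x then
      F (sz E x) (fun i j => θ (e i) (e j)) ⟨i, h.1⟩ ⟨j, h.2⟩ else 0) = _
    rw [dif_pos ⟨i.2, j.2⟩]
  rw [h4]
  show Φ _ _ (if h : ∃ s, Φ (sz E x) (fun i j => θ (e i) (e j)) s then h.choose else fun _ _ => 0)
  rw [dif_pos hex]
  exact hex.choose_spec

end Cls

end Run7.h932
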