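import Mathlib

/-!
# A matching that covers a given set of vertices
-/

set_option autoImplicit false

namespace Run7.h932

open Set SimpleGraph

variable {V : Type} [Fintype V]

/-- the auxiliary graph: the vertices outside `T` and the new vertices form a clique -/
def aux (G : SimpleGraph V) (T : Set V) : SimpleGraph (V ⊕ V) where
  Adj x y := x ≠ y ∧ match x, y with
    | Sum.inl a, Sum.inl b => G.Adj a b ∨ (a ∉ T ∧ b ∉ T)
    | Sum.inl a, Sum.inr _ => a ∉ T
    | Sum.inr _, Sum.inl b => b ∉ T
    | Sum.inr _, Sum.inr _ => True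
  symm := ⟨by
    rintro (a | a) (b | b) ⟨h1, h2⟩
    · exact ⟨h1.symm, h2.elim (fun h => Or.inl h.symm) fun h => Or.inr ⟨h.2, h.1⟩⟩
    · exact ⟨h1.symm, h2⟩
    · exact ⟨h1.symm, h2⟩
    · exact ⟨h1.symm, h2⟩⟩
  loopless := ⟨fun x h => h.1 rfl⟩

/-- a vertex of the clique -/
def isN (T : Set V) : V ⊕ V → Prop
  | Sum.inl a => a ∉ T
  | Sum.inr _ => True

omit [Fintype V] in
theorem aux_clique {G : SimpleGraph V} {T : Set V} {x y : V ⊕ V} (hx : isN T x) (hy : isN T y)
    (h : x ≠ y) : (aux G T).Adj x y := by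
  rcases x with a | a <;> rcases y with b | b
  · exact ⟨h, Or.inr ⟨hx, hy⟩⟩
  · exact ⟨h, hx⟩
  · exact ⟨h, hy⟩
  · exact ⟨h, trivial⟩

/-- **Tutte's theorem for covering a set.** -/
theorem tutteT (G : SimpleGraph V) (T : Set V)
    (h : ∀ (A : Finset V) (𝒟 : Finset (Finset V)),
      (∀ D ∈ 𝒟, Odd D.card ∧ (∀ x ∈ D, x ∈ T ∧ x ∉ A ∧ ∀ y, G.Adj x y → y ∈ D ∨ y ∈ A)) →
      (∀ D ∈ 𝒟, ∀ D' ∈ 𝒟, ∀ x, x ∈ D → x ∈ D' → D = D') → 𝒟.card ≤ A.card) :
    ∃ m : V → V → Prop, (∀ a b, m a b → G.Adj a b) ∧ (∀ a b, m a b → m b a) ∧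
      (∀ a b b', m a b → m a b' → b = b') ∧ ∀ t ∈ T, ∃ b, m t b := by
  classical
  obtain ⟨M, hM⟩ : ∃ M : Subgraph (aux G T), M.IsPerfectMatching := by
    rw [SimpleGraph.tutte]
    intro u hu
    unfold SimpleGraph.IsTutteViolator at hu
    set S := ((⊤ : (aux G T).Subgraph).deleteVerts u) with hS
    have hverts : S.verts = uᶜ := by
      rw [hS, SimpleGraph.Subgraph.deleteVerts_verts]
      ext z; simp
    have hadj : ∀ x y : S.verts, (aux G T).Adj x.1 y.1 → S.coe.Adj x y := by
      intro x y hxy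
      have hm : ∀ z ∈ S.verts, z ∉ u := by intro z hz; rw [hverts] at hz; exact hz
      exact (SimpleGraph.Subgraph.deleteVerts_adj).2
        ⟨trivial, hm _ x.2, trivial, hm _ y.2, hxy⟩
    have hadj' : ∀ x y : S.verts, S.coe.Adj x y → (aux G T).Adj x.1 y.1 := by
      intro x y hxy
      have : S.Adj x.1 y.1 := hxy
      exact this.adj_sub
    -- parity
    have hcard : Nat.card S.verts = 2 * Fintype.card V - u.ncard := by
      have h1 : Nat.card S.verts = S.verts.ncard := rfl
      rw [h1, hverts]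
      have h2 := Set.ncard_add_ncard_compl u
      rw [Nat.card_eq_fintype_card, Fintype.card_sum] at h2
      omega
    have hule : u.ncard ≤ 2 * Fintype.card V := by
      have h2 := Set.ncard_add_ncard_compl u
      rw [Nat.card_eq_fintype_card, Fintype.card_sum] at h2
      omega
    have hpar := SimpleGraph.odd_ncard_oddComponents S.coe
    rw [hcard] at hpar
    have hge : u.ncard + 2 ≤ S.coe.oddComponents.ncard := by
      by_contra hlt
      have he : S.coe.oddComponents.ncard = u.ncard + 1 := by omega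
      rw [he] at hpar
      rcases Nat.even_or_odd u.ncard with h1 | h1
      · have h2 : Odd (u.ncard + 1) := h1.add_one
        have h3 := hpar.1 h2
        obtain ⟨a, ha⟩ := h1
        obtain ⟨b, hb⟩ := h3
        omega
      · have h2 : Odd (2 * Fintype.card V - u.ncard) := by
          obtain ⟨a, ha⟩ := h1
          exact ⟨Fintype.card V - a - 1, by omega⟩
        have h3 := hpar.2 h2
        obtain ⟨a, ha⟩ := h1
        obtain ⟨b, hb⟩ := h3
        omega
    -- the components inside `T`
    let OT : Set S.coe.ConnectedComponent :=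
      {c | c ∈ S.coe.oddComponents ∧ ∀ z ∈ c.supp, ¬ isN T z.1}
    have hOT : S.coe.oddComponents.ncard ≤ OT.ncard + 1 := by
      have h1 : S.coe.oddComponents ⊆ OT ∪ {c | c ∈ S.coe.oddComponents ∧ ∃ z ∈ c.supp,
          isN T z.1} := by
        intro c hc
        by_cases hz : ∃ z ∈ c.supp, isN T z.1
        · exact Or.inr ⟨hc, hz⟩
        · left
          push Not at hz
          exact ⟨hc, hz⟩
      have h2 : {c | c ∈ S.coe.oddComponents ∧ ∃ z ∈ c.supp, isN T z.1}.ncard ≤ 1 := by
        rw [Set.ncard_le_one_iff]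
        rintro c c' ⟨-, z, hz, hzN⟩ ⟨-, z', hz', hzN'⟩
        rw [SimpleGraph.ConnectedComponent.mem_supp_iff] at hz hz'
        rw [← hz, ← hz']
        by_cases hzz : z = z'
        · rw [hzz]
        · rw [SimpleGraph.ConnectedComponent.eq]
          apply SimpleGraph.Adj.reachable
          apply hadj
          exact aux_clique hzN hzN' fun h => hzz (Subtype.ext h)
      calc S.coe.oddComponents.ncard ≤ (OT ∪ {c | c ∈ S.coe.oddComponents ∧ ∃ z ∈ c.supp,
          isN T z.1}).ncard := Set.ncard_le_ncard h1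
        _ ≤ OT.ncard + _ := Set.ncard_union_le _ _
        _ ≤ OT.ncard + 1 := by omega
    let Dc : S.coe.ConnectedComponent → Finset V := fun c =>
      Finset.univ.filter fun v => ∃ hv : Sum.inl v ∈ S.verts, (⟨Sum.inl v, hv⟩ : S.verts) ∈ c.supp
    have hDc : ∀ c ∈ OT, ∀ z ∈ c.supp, ∃ v, z.1 = Sum.inl v ∧ v ∈ T ∧ v ∈ Dc c := by
      rintro c ⟨-, hc⟩ ⟨z, hz⟩ hzc
      have h1 := hc _ hzc
      rcases z with v | v
      · refine ⟨v, rfl, ?_, ?_⟩
        · by_contra h2; exact h1 h2
        · rw [Finset.mem_filter]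
          exact ⟨Finset.mem_univ _, hz, hzc⟩
      · exact absurd trivial h1
    let A : Finset V := Finset.univ.filter fun v => Sum.inl v ∈ u
    have hA : A.card ≤ u.ncard := by
      rw [← Set.ncard_coe_finset A, ← Set.ncard_image_of_injective (A : Set V)
        (Sum.inl_injective : Function.Injective (Sum.inl : V → V ⊕ V))]
      refine Set.ncard_le_ncard ?_ (Set.toFinite u)
      rintro _ ⟨v, hv, rfl⟩
      exact (Finset.mem_filter.1 hv).2
    have hOTfin : OT.Finite := Set.toFinite _
    let 𝒟 : Finset (Finset V) := hOTfin.toFinset.image Dc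
    have hDcard : 𝒟.card = OT.ncard := by
      rw [Finset.card_image_of_injOn, Set.ncard_eq_toFinset_card _ hOTfin]
      intro c hc c' hc' hcc
      have hc1 : c ∈ OT := hOTfin.mem_toFinset.1 hc
      have hc1' : c' ∈ OT := hOTfin.mem_toFinset.1 hc'
      obtain ⟨z, hz⟩ := c.nonempty_supp
      obtain ⟨v, hv1, hv2, hv3⟩ := hDc c hc1 z hz
      have hcc' : Dc c = Dc c' := hcc
      rw [hcc'] at hv3
      obtain ⟨-, hv4, hv5⟩ := Finset.mem_filter.1 hv3
      rw [SimpleGraph.ConnectedComponent.mem_supp_iff] at hz hv5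
      rw [← hz, ← hv5]
      congr 1
      exact Subtype.ext hv1
    have hfinal := h A 𝒟 ?_ ?_
    · rw [hDcard] at hfinal
      omega
    · intro D hD
      obtain ⟨c, hc, rfl⟩ := Finset.mem_image.1 hD
      have hc1 : c ∈ OT := hOTfin.mem_toFinset.1 hc
      constructor
      · have h1 : Odd c.supp.ncard := hc1.1
        have h2 : c.supp.ncard = (Dc c).card := by
          rw [← Set.ncard_coe_finset]
          refine Set.ncard_congr (fun z hz => (hDc c hc1 z hz).choose) ?_ ?_ ?_
          · intro z hz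
            exact (hDc c hc1 z hz).choose_spec.2.2
          · intro z z' hz hz' hzz
            apply Subtype.ext
            rw [(hDc c hc1 z hz).choose_spec.1, (hDc c hc1 z' hz').choose_spec.1, hzz]
          · intro v hv
            obtain ⟨-, hv4, hv5⟩ := Finset.mem_filter.1 (Finset.mem_coe.1 hv)
            refine ⟨_, hv5, ?_⟩
            have := (hDc c hc1 _ hv5).choose_spec.1
            exact (Sum.inl_injective this).symm
        rw [← h2]; exact h1
      · intro v hv
        obtain ⟨-, hv4, hv5⟩ := Finset.mem_filter.1 hv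
        have hvT : v ∈ T := by
          by_contra h2
          exact hc1.2 _ hv5 h2
        have hvu : v ∉ A := by
          rw [Finset.mem_filter]
          rintro ⟨-, h2⟩
          rw [hverts] at hv4
          exact hv4 h2
        refine ⟨hvT, hvu, fun y hy => ?_⟩
        by_cases hyu : Sum.inl y ∈ u
        · right
          exact Finset.mem_filter.2 ⟨Finset.mem_univ _, hyu⟩
        · left
          have hy4 : Sum.inl y ∈ S.verts := by rw [hverts]; exact hyu
          refine Finset.mem_filter.2 ⟨Finset.mem_univ _, hy4, ?_⟩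
          rw [SimpleGraph.ConnectedComponent.mem_supp_iff] at hv5 ⊢
          rw [← hv5, SimpleGraph.ConnectedComponent.eq]
          apply SimpleGraph.Adj.reachable
          apply hadj
          exact ⟨fun h3 => hy.ne (Sum.inl_injective h3).symm, Or.inl hy.symm⟩
    · intro D hD D' hD' x hx hx'
      obtain ⟨c, hc, rfl⟩ := Finset.mem_image.1 hD
      obtain ⟨c', hc', rfl⟩ := Finset.mem_image.1 hD'
      obtain ⟨-, h4, h5⟩ := Finset.mem_filter.1 hx
      obtain ⟨-, h4', h5'⟩ := Finset.mem_filter.1 hx'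
      rw [SimpleGraph.ConnectedComponent.mem_supp_iff] at h5 h5'
      rw [← h5, ← h5']
  refine ⟨fun a b => M.Adj (Sum.inl a) (Sum.inl b) ∧ G.Adj a b, fun a b h => h.2,
    fun a b h => ⟨h.1.symm, h.2.symm⟩, ?_, ?_⟩
  · intro a b b' h1 h2
    have := hM.1.eq_of_adj_left h1.1 h2.1
    exact Sum.inl_injective this
  · intro t ht
    obtain ⟨w, hw, -⟩ := hM.1 (hM.2 (Sum.inl t))
    have h1 := hw.adj_sub
    rcases w with b | b
    · refine ⟨b, hw, ?_⟩
      rcases h1.2 with h2 | h2
      · exact h2
      · exact absurd ht h2.1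
    · exact absurd ht h1.2

end Run7.h932
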