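import Pool.Agent.Q6.CI.Vizing
import Pool.Agent.Run7.h932.Tut

/-!
# Finite lemmas: extending an edge colouring, covering matchings
-/

set_option autoImplicit false

namespace Run7.h932

open SimpleGraph Finset Pool.Q11.TwoEnd Pool.Q6.CI

variable {V : Type} [Fintype V]

/-- adding the missing edges one by one -/
theorem addAll {F0 F : SimpleGraph V} {n : ℕ} (h0 : F0 ≤ F) (h : EC F0 n)
    (step : ∀ G' : SimpleGraph V, F0 ≤ G' → G' ≤ F → EC G' n → ∀ x y, F.Adj x y →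
      ¬ G'.Adj x y → EC (AddE G' x y) n) : EC F n := by
  classical
  have key : ∀ m : ℕ, ∀ G' : SimpleGraph V, F0 ≤ G' → G' ≤ F → EC G' n →
      (univ.filter fun p : V × V => F.Adj p.1 p.2 ∧ ¬ G'.Adj p.1 p.2).card ≤ m → EC F n := by
    intro m
    induction m with
    | zero =>
      intro G' _ _ h3 h4
      refine h3.mono ?_
      intro a b hab
      by_contra hcon
      have : (a, b) ∈ (univ.filter fun p : V × V => F.Adj p.1 p.2 ∧ ¬ G'.Adj p.1 p.2) :=
        mem_filter.2 ⟨mem_univ _, hab, hcon⟩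
      have := card_pos.2 ⟨_, this⟩
      omega
    | succ m ih =>
      intro G' h1 h2 h3 h4
      by_cases hle : F ≤ G'
      · exact h3.mono hle
      · have : ∃ x y, F.Adj x y ∧ ¬ G'.Adj x y := by
          by_contra hcon
          push Not at hcon
          exact hle fun a b hab => hcon a b hab
        obtain ⟨x, y, hxy, hxy'⟩ := this
        have hadd := step G' h1 h2 h3 x y hxy hxy'
        refine ih (AddE G' x y) ?_ ?_ hadd ?_
        · intro a b hab
          rw [addE_adj]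
          exact ⟨(h1 hab).ne, Or.inl (h1 hab)⟩
        · intro a b hab
          rw [addE_adj] at hab
          rcases hab.2 with h5 | ⟨rfl, rfl⟩ | ⟨rfl, rfl⟩
          · exact h2 h5
          · exact hxy
          · exact hxy.symm
        · have hlt : (univ.filter fun p : V × V => F.Adj p.1 p.2 ∧
              ¬ (AddE G' x y).Adj p.1 p.2).card <
              (univ.filter fun p : V × V => F.Adj p.1 p.2 ∧ ¬ G'.Adj p.1 p.2).card := by
            apply card_lt_card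
            refine ⟨?_, ?_⟩
            · intro p hp
              rw [mem_filter] at hp ⊢
              refine ⟨hp.1, hp.2.1, fun h5 => hp.2.2 ?_⟩
              rw [addE_adj]
              exact ⟨h5.ne, Or.inl h5⟩
            · intro hsub
              have h5 : (x, y) ∈ (univ.filter fun p : V × V => F.Adj p.1 p.2 ∧
                  ¬ G'.Adj p.1 p.2) := mem_filter.2 ⟨mem_univ _, hxy, hxy'⟩
              have h6 := (mem_filter.1 (hsub h5)).2.2
              apply h6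
              rw [addE_adj]
              exact ⟨hxy.ne, Or.inr (Or.inl ⟨rfl, rfl⟩)⟩
          omega
  exact key _ F0 le_rfl h0 h le_rfl

omit [Fintype V] in
theorem addE_comm (G : SimpleGraph V) (x y : V) : AddE G x y ≤ AddE G y x := by
  intro a b h
  rw [addE_adj] at h ⊢
  tauto

/-- the extension lemma behind the peeling -/
theorem extT {F0 F : SimpleGraph V} {n : ℕ} (h0 : F0 ≤ F) (h : EC F0 n) (M R Q A : Set V)
    (h1 : ∀ x y, F.Adj x y → ¬ F0.Adj x y → x ∈ M)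
    (h2 : ∀ x y, x ∈ M → F.Adj x y → y ∈ R) (hMR : M ⊆ R)
    (h3 : ∀ v ∈ R, dg F v ≤ n) (h3' : ∀ v ∈ R, v ∉ Q → dg F v < n)
    (h4 : ∀ x y, F.Adj x y → x ∈ Q → x ∈ R → y ∈ R → y ∉ Q)
    (h5 : ∀ x y, F.Adj x y → ¬ F0.Adj x y → x ∈ A ∨ y ∈ A)
    (h6 : ∀ x ∈ A, ∀ y, ¬ F0.Adj x y) : EC F n := by
  classical
  let F1 : SimpleGraph V := ⟨fun x y => F0.Adj x y ∨ (F.Adj x y ∧ x ∉ Q ∧ y ∉ Q),
    ⟨fun x y hxy => hxy.elim (fun h => Or.inl h.symm) fun h => Or.inr ⟨h.1.symm, h.2.2, h.2.1⟩⟩,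
    ⟨fun x hx => hx.elim (fun h => h.ne rfl) fun h => h.1.ne rfl⟩⟩
  have h01 : F0 ≤ F1 := fun x y hxy => Or.inl hxy
  have h1F : F1 ≤ F := fun x y hxy => hxy.elim (fun h => h0 h) fun h => h.1
  have hF1 : EC F1 n := by
    refine addAll h01 h fun G' hG1 hG2 hG3 x y hxy hxy' => ?_
    have key : ∀ x y, F1.Adj x y → ¬ G'.Adj x y → x ∈ A → EC (AddE G' x y) n := by
      intro x y hxy hxy' hxA
      have hxy0 : ¬ F0.Adj x y := fun h => hxy' (hG1 h)
      have hxyQ : F.Adj x y ∧ x ∉ Q ∧ y ∉ Q := hxy.resolve_left hxy0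
      have hxM := h1 x y hxyQ.1 hxy0
      obtain ⟨c, hc⟩ := hG3
      refine fan_lemma hc hxyQ.1.ne hxy' ?_ ?_
      · exact exists_miss c (lt_of_le_of_lt (dg_mono (hG2.trans h1F) x)
          (h3' x (hMR hxM) hxyQ.2.1))
      · intro w hw
        have hwF : F.Adj x w ∧ w ∉ Q := by
          rcases hw with rfl | hw
          · exact ⟨hxyQ.1, hxyQ.2.2⟩
          · rcases hG2 hw with h7 | h7
            · exact absurd h7 (h6 x hxA w)
            · exact ⟨h7.1, h7.2.2⟩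
        exact exists_miss c (lt_of_le_of_lt (dg_mono (hG2.trans h1F) w)
          (h3' w (h2 x w hxM hwF.1) hwF.2))
    have hxy0 : ¬ F0.Adj x y := fun h => hxy' (hG1 h)
    rcases h5 x y (h1F hxy) hxy0 with hxA | hyA
    · exact key x y hxy hxy' hxA
    · exact (key y x hxy.symm (fun h => hxy' h.symm) hyA).mono (addE_comm _ _ _)
  refine addAll h1F hF1 fun G' hG1 hG2 hG3 x y hxy hxy' => ?_
  have key : ∀ x y, F.Adj x y → ¬ G'.Adj x y → x ∈ Q → EC (AddE G' x y) n := by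
    intro x y hxy hxy' hxQ
    have hxy0 : ¬ F0.Adj x y := fun h => hxy' (hG1 (h01 h))
    have hxM := h1 x y hxy hxy0
    obtain ⟨c, hc⟩ := hG3
    refine fan_lemma hc hxy.ne hxy' ?_ ?_
    · refine exists_miss c (lt_of_lt_of_le ?_ (h3 x (hMR hxM)))
      unfold dg
      apply card_lt_card
      refine ⟨fun w hw => ?_, fun hsub => ?_⟩
      · rw [mem_filter] at hw ⊢
        exact ⟨hw.1, hG2 hw.2⟩
      · have h7 : y ∈ univ.filter fun w => F.Adj x w := mem_filter.2 ⟨mem_univ _, hxy⟩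
        exact hxy' (mem_filter.1 (hsub h7)).2
    · intro w hw
      have hwF : F.Adj x w := by
        rcases hw with rfl | hw
        · exact hxy
        · exact hG2 hw
      have hwR := h2 x w hxM hwF
      exact exists_miss c (lt_of_le_of_lt (dg_mono hG2 w)
        (h3' w hwR (h4 x w hwF hxQ (hMR hxM) hwR)))
  by_cases hxQ : x ∈ Q
  · exact key x y hxy hxy' hxQ
  · by_cases hyQ : y ∈ Q
    · exact (key y x hxy.symm (fun h => hxy' h.symm) hyQ).mono (addE_comm _ _ _)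
    · exact absurd (hG1 (Or.inr ⟨hxy, hxQ, hyQ⟩)) hxy'

/-- a matching, as a relation -/
structure Mat {U : Type} (G : SimpleGraph U) (m : U → U → Prop) : Prop where
  adj : ∀ a b, m a b → G.Adj a b
  symm : ∀ a b, m a b → m b a
  uniq : ∀ a b b', m a b → m a b' → b = b'

/-- the number of edges that leave a set -/
noncomputable def bd (G : SimpleGraph V) (D : Finset V) : ℕ := by
  classical
  exact (univ.filter fun p : V × V => p.1 ∈ D ∧ p.2 ∉ D ∧ G.Adj p.1 p.2).card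

/-- a matching that covers `T` -/
theorem cover (G : SimpleGraph V) (T : Set V) {Δ : ℕ} (hΔ : 0 < Δ) (hdeg : ∀ v, dg G v ≤ Δ)
    (hodd : ∀ D : Finset V, Odd D.card → (∀ x ∈ D, x ∈ T) → Δ ≤ bd G D) :
    ∃ m : V → V → Prop, Mat G m ∧ ∀ t ∈ T, ∃ b, m t b := by
  classical
  suffices hs : ∀ (A : Finset V) (𝒟 : Finset (Finset V)),
      (∀ D ∈ 𝒟, Odd D.card ∧ (∀ x ∈ D, x ∈ T ∧ x ∉ A ∧ ∀ y, G.Adj x y → y ∈ D ∨ y ∈ A)) →
      (∀ D ∈ 𝒟, ∀ D' ∈ 𝒟, ∀ x, x ∈ D → x ∈ D' → D = D') → 𝒟.card ≤ A.card by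
    obtain ⟨m, hm1, hm2, hm3, hm4⟩ := tutteT G T hs
    exact ⟨m, ⟨hm1, hm2, hm3⟩, hm4⟩
  intro A 𝒟 h𝒟 hdis
  have h1 : 𝒟.card * Δ ≤ ∑ D ∈ 𝒟, bd G D := by
    rw [← smul_eq_mul]
    apply card_nsmul_le_sum
    intro D hD
    exact hodd D (h𝒟 D hD).1 fun x hx => ((h𝒟 D hD).2 x hx).1
  have h2 : ∑ D ∈ 𝒟, bd G D ≤ ∑ a ∈ A, dg G a := by
    have h3 : ∑ D ∈ 𝒟, bd G D = (𝒟.biUnion fun D =>
        univ.filter fun p : V × V => p.1 ∈ D ∧ p.2 ∉ D ∧ G.Adj p.1 p.2).card := by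
      rw [card_biUnion]
      · refine Finset.sum_congr rfl fun D _ => ?_
        unfold bd
        congr
      · intro D hD D' hD' hne
        rw [Function.onFun, Finset.disjoint_left]
        intro p hp hp'
        rw [mem_filter] at hp hp'
        exact hne (hdis D hD D' hD' p.1 hp.2.1 hp'.2.1)
    have h4 : ∑ a ∈ A, dg G a = (A.sigma fun a => univ.filter fun w => G.Adj a w).card := by
      rw [card_sigma]; rfl
    rw [h3, h4]
    apply card_le_card_of_injOn (fun p => (⟨p.2, p.1⟩ : Σ _ : V, V))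
    · intro p hp
      obtain ⟨D, hD, hpD⟩ := mem_biUnion.1 (mem_coe.1 hp)
      rw [mem_filter] at hpD
      rw [mem_coe, mem_sigma]
      refine ⟨?_, mem_filter.2 ⟨mem_univ _, hpD.2.2.2.symm⟩⟩
      exact (((h𝒟 D hD).2 p.1 hpD.2.1).2.2 p.2 hpD.2.2.2).resolve_left hpD.2.2.1
    · rintro ⟨a, b⟩ - ⟨a', b'⟩ - hab
      simp only [Sigma.mk.injEq, heq_eq_eq] at hab
      rw [Prod.mk.injEq]
      exact ⟨hab.2, hab.1⟩
  have h3 : ∑ a ∈ A, dg G a ≤ A.card * Δ := by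
    rw [← smul_eq_mul]
    exact sum_le_card_nsmul _ _ _ fun a _ => hdeg a
  have h4 : 𝒟.card * Δ ≤ A.card * Δ := h1.trans (h2.trans h3)
  exact Nat.le_of_mul_le_mul_right h4 hΔ

/-- extending a matching to a maximal one inside a set -/
theorem maxMat {G : SimpleGraph V} {m : V → V → Prop} (hm : Mat G m) (U : Set V)
    (hU : ∀ a b, m a b → a ∈ U) :
    ∃ m' : V → V → Prop, Mat G m' ∧ (∀ a b, m a b → m' a b) ∧ (∀ a b, m' a b → a ∈ U) ∧
      ∀ x y, G.Adj x y → x ∈ U → y ∈ U → (∃ b, m' x b) ∨ ∃ b, m' y b := by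
  classical
  let P : Finset (V → V → Prop) := univ.filter fun m' => Mat G m' ∧ (∀ a b, m a b → m' a b) ∧
    (∀ a b, m' a b → a ∈ U)
  let cnt : (V → V → Prop) → ℕ := fun m' => {p : V × V | m' p.1 p.2}.ncard
  obtain ⟨m', hm', hmax⟩ := exists_max_image P cnt
    ⟨m, mem_filter.2 ⟨mem_univ _, hm, fun a b h => h, hU⟩⟩
  obtain ⟨-, h1, h2, h3⟩ := mem_filter.1 hm'
  refine ⟨m', h1, h2, h3, ?_⟩
  intro x y hxy hx hy
  by_contra hcon
  push Not at hcon
  let m'' : V → V → Prop := fun a b => m' a b ∨ (a = x ∧ b = y) ∨ (a = y ∧ b = x)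
  have hm'' : m'' ∈ P := by
    refine mem_filter.2 ⟨mem_univ _, ⟨?_, ?_, ?_⟩, ?_, ?_⟩
    · rintro a b (h | ⟨rfl, rfl⟩ | ⟨rfl, rfl⟩)
      · exact h1.adj _ _ h
      · exact hxy
      · exact hxy.symm
    · rintro a b (h | h | h)
      · exact Or.inl (h1.symm _ _ h)
      · exact Or.inr (Or.inr ⟨h.2, h.1⟩)
      · exact Or.inr (Or.inl ⟨h.2, h.1⟩)
    · rintro a b b' (h | ⟨ha, hb⟩ | ⟨ha, hb⟩) (h' | ⟨ha', hb'⟩ | ⟨ha', hb'⟩)
      · exact h1.uniq _ _ _ h h'
      · rw [ha'] at h; exact absurd h (hcon.1 _)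
      · rw [ha'] at h; exact absurd h (hcon.2 _)
      · rw [ha] at h'; exact absurd h' (hcon.1 _)
      · rw [hb, hb']
      · exact absurd (ha.symm.trans ha') hxy.ne
      · rw [ha] at h'; exact absurd h' (hcon.2 _)
      · exact absurd (ha'.symm.trans ha) hxy.ne
      · rw [hb, hb']
    · intro a b h; exact Or.inl (h2 a b h)
    · rintro a b (h | ⟨rfl, rfl⟩ | ⟨rfl, rfl⟩)
      · exact h3 _ _ h
      · exact hx
      · exact hy
  have h5 := hmax m'' hm''
  have h6 : cnt m' < cnt m'' := by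
    refine Set.ncard_lt_ncard ?_ (Set.toFinite _)
    refine ⟨fun p hp => Or.inl hp, fun hsub => ?_⟩
    have h7 : (x, y) ∈ {p : V × V | m'' p.1 p.2} := Or.inr (Or.inl ⟨rfl, rfl⟩)
    exact hcon.1 _ (hsub h7)
  omega

/-- bad sets: odd sets of full vertices in the middle with small boundary -/
def Bad (G : SimpleGraph V) (l : V → ℕ) (Δ W : ℕ) (K : Finset V) : Prop :=
  Odd K.card ∧ (∀ x ∈ K, 5 ≤ l x ∧ l x + 5 ≤ W ∧ dg G x = Δ) ∧ bd G K + 2 ≤ Δ

/-- a maximal family of disjoint bad sets -/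
theorem badFam (G : SimpleGraph V) (l : V → ℕ) (Δ W : ℕ) :
    ∃ ℱ : Finset (Finset V), (∀ K ∈ ℱ, Bad G l Δ W K) ∧
      (∀ K ∈ ℱ, ∀ K' ∈ ℱ, ∀ x, x ∈ K → x ∈ K' → K = K') ∧
      ∀ K, Bad G l Δ W K → ∃ K' ∈ ℱ, ∃ x ∈ K, x ∈ K' := by
  classical
  let P : Finset (Finset (Finset V)) := univ.filter fun ℱ => (∀ K ∈ ℱ, Bad G l Δ W K) ∧
      (∀ K ∈ ℱ, ∀ K' ∈ ℱ, ∀ x, x ∈ K → x ∈ K' → K = K')
  obtain ⟨ℱ, hℱ, hmax⟩ := exists_max_image P (fun ℱ => ℱ.card)
    ⟨∅, mem_filter.2 ⟨mem_univ _, by simp, by simp⟩⟩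
  obtain ⟨-, h1, h2⟩ := mem_filter.1 hℱ
  refine ⟨ℱ, h1, h2, fun K hK => ?_⟩
  by_contra hcon
  push Not at hcon
  have hKne : K.Nonempty := by
    rw [← card_pos]
    obtain ⟨a, ha⟩ := hK.1
    omega
  have hKn : K ∉ ℱ := by
    intro hKF
    obtain ⟨x, hx⟩ := hKne
    exact hcon K hKF x hx hx
  have hins : insert K ℱ ∈ P := by
    refine mem_filter.2 ⟨mem_univ _, ?_, ?_⟩
    · intro K' hK'
      rcases mem_insert.1 hK' with rfl | h
      · exact hK
      · exact h1 K' h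
    · intro K1 hK1 K2 hK2 x hx1 hx2
      rcases mem_insert.1 hK1 with rfl | h3 <;> rcases mem_insert.1 hK2 with rfl | h4
      · rfl
      · exact absurd hx2 (hcon K2 h4 x hx1)
      · exact absurd hx1 (hcon K1 h3 x hx2)
      · exact h2 K1 h3 K2 h4 x hx1 hx2
  have := hmax _ hins
  rw [card_insert_of_notMem hKn] at this
  omega

end Run7.h932
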