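import Pool.Agent.Run7.h932.Graph
import Pool.Agent.Run7.h932.Fin

/-!
# Borel edge colourings with finite components, cutting out bad sets
-/

set_option autoImplicit false

namespace Run7.h932

open Set MeasureTheory SimpleGraph Pool.Q11.TwoEnd Pool.Q6.CI

/-- the indicator of a proposition -/
noncomputable def ind (P : Prop) : ℕ := by
  classical
  exact if P then 1 else 0

theorem ind_eq {P : Prop} : ind P = 1 ↔ P := by
  classical
  unfold ind
  by_cases h : P
  · simp [h]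
  · simp [h]

theorem meas_ind {Y : Type} [MeasurableSpace Y] {P : Y → Prop} (h : MeasurableSet {y | P y}) :
    Measurable fun y => ind (P y) := by
  classical
  unfold ind
  exact Measurable.ite h measurable_const measurable_const

variable {X : Type}

/-- locally finite -/
def LF (H : SimpleGraph X) : Prop := ∀ x, (H.neighborSet x).Finite

theorem LF.mono {H H' : SimpleGraph X} (h : LF H') (hle : H ≤ H') : LF H :=
  fun x => (h x).subset fun _ hy => hle hy

/-- the finite subgraphs are edge colourable -/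
def FCol (H : SimpleGraph X) (k : ℕ) : Prop :=
  ∀ (n : ℕ) (e : Fin n → X), Function.Injective e → EC (H.comap e) k

theorem FCol.mono {H H' : SimpleGraph X} {k : ℕ} (h : FCol H' k) (hle : H ≤ H') : FCol H k :=
  fun n e he => (h n e he).mono fun _ _ hab => hle hab

/-- the graph of a table -/
def gr {n : ℕ} (t : Fin n → Fin n → ℕ) : SimpleGraph (Fin n) :=
  SimpleGraph.fromRel fun i j => t i j = 1

theorem gr_ind {H : SimpleGraph X} {n : ℕ} (e : Fin n → X) :
    gr (fun i j => ind (H.Adj (e i) (e j))) = H.comap e := by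
  ext i j
  unfold gr
  rw [SimpleGraph.fromRel_adj, ind_eq, ind_eq, SimpleGraph.comap_adj]
  constructor
  · rintro ⟨-, h | h⟩
    · exact h
    · exact h.symm
  · intro h
    exact ⟨fun h' => h.ne (congrArg e h'), Or.inl h⟩

/-- the degree in an enumerated finite part -/
theorem dg_comap {H H' : SimpleGraph X} {n : ℕ} {e : Fin n → X} (he : Function.Injective e)
    {x : X} (hr : range e = {y | H'.Reachable x y}) (hle : H' ≤ H) (i : Fin n)
    (hi : ∀ y, H.Adj (e i) y → H'.Adj (e i) y) :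
    dg (H'.comap e) i = (H.neighborSet (e i)).ncard := by
  classical
  have hxi : H'.Reachable x (e i) := by
    have : e i ∈ range e := ⟨i, rfl⟩
    rw [hr] at this
    exact this
  have h1 : H.neighborSet (e i) = e '' {j | (H'.comap e).Adj i j} := by
    ext y
    constructor
    · intro hy
      have hy' := hi y hy
      have : y ∈ range e := by
        rw [hr]
        exact hxi.trans hy'.reachable
      obtain ⟨j, rfl⟩ := this
      exact ⟨j, hy', rfl⟩
    · rintro ⟨j, hj, rfl⟩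
      exact hle hj
  rw [h1, ncard_image_of_injective _ he]
  unfold dg
  rw [← Set.ncard_coe_finset]
  congr 1
  ext j
  simp

/-- the degree in an enumerated part is at most the degree -/
theorem dg_comap_le {H H' : SimpleGraph X} {n : ℕ} {e : Fin n → X} (he : Function.Injective e)
    (hle : H' ≤ H) (hlf : LF H) (i : Fin n) :
    dg (H'.comap e) i ≤ (H.neighborSet (e i)).ncard := by
  classical
  have h1 : e '' {j | (H'.comap e).Adj i j} ⊆ H.neighborSet (e i) := by
    rintro _ ⟨j, hj, rfl⟩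
    exact hle hj
  have h2 := ncard_le_ncard h1 (hlf (e i))
  rw [ncard_image_of_injective _ he] at h2
  refine le_trans (le_of_eq ?_) h2
  unfold dg
  rw [← Set.ncard_coe_finset]
  congr 1
  ext j
  simp

/-- the boundary in an enumerated finite part -/
theorem bd_comap {H H' : SimpleGraph X} {n : ℕ} {e : Fin n → X} (he : Function.Injective e)
    {x : X} (hr : range e = {y | H'.Reachable x y}) (hle : H' ≤ H) (K : Finset (Fin n))
    (hi : ∀ i ∈ K, ∀ y, H.Adj (e i) y → H'.Adj (e i) y) :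
    bd (H'.comap e) K = {p : X × X | p.1 ∈ e '' K ∧ p.2 ∉ e '' K ∧ H.Adj p.1 p.2}.ncard := by
  classical
  have h1 : {p : X × X | p.1 ∈ e '' K ∧ p.2 ∉ e '' K ∧ H.Adj p.1 p.2} =
      Prod.map e e '' {q : Fin n × Fin n | q.1 ∈ K ∧ q.2 ∉ K ∧ (H'.comap e).Adj q.1 q.2} := by
    ext ⟨a, b⟩
    constructor
    · rintro ⟨⟨i, hiK, hia⟩, h2, h3⟩
      simp only at hia h2 h3
      subst hia
      have h4 := hi i hiK b h3
      have hxi : H'.Reachable x (e i) := by
        have : e i ∈ range e := ⟨i, rfl⟩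
        rw [hr] at this
        exact this
      have : b ∈ range e := by
        rw [hr]
        exact hxi.trans h4.reachable
      obtain ⟨j, rfl⟩ := this
      exact ⟨(i, j), ⟨hiK, fun hj => h2 ⟨j, hj, rfl⟩, h4⟩, rfl⟩
    · rintro ⟨⟨i, j⟩, ⟨h2, h3, h4⟩, h5⟩
      rw [Prod.map_apply, Prod.mk.injEq] at h5
      obtain ⟨rfl, rfl⟩ := h5
      refine ⟨⟨i, h2, rfl⟩, ?_, hle h4⟩
      rintro ⟨j', hj', hjj⟩
      rw [he hjj] at hj'
      exact h3 hj'
  rw [h1, ncard_image_of_injective _ (he.prodMap he)]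
  unfold bd
  rw [← Set.ncard_coe_finset]
  congr 1
  ext q
  simp

section Meas

variable [MeasurableSpace X] [StandardBorelSpace X]

/-- a Borel edge colouring -/
def BCol (H : SimpleGraph X) (k : ℕ) : Prop :=
  ∃ c : X → X → ℕ, Measurable (fun p : X × X => c p.1 p.2) ∧ PC H k c

/-- with finite components -/
theorem colC {H : SimpleGraph X} (hH : BG H) (hlf : LF H) (hfin : FinC H) {k : ℕ}
    (hcol : FCol H k) : BCol H k := by
  classical
  have hθ : Measurable fun p : X × X => ind (H.Adj p.1 p.2) := meas_ind hH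
  obtain ⟨s, hs1, -, hs3⟩ := BC (E := H.Reachable) (reach_equiv H)
    (reach_meas hH fun x => (hlf x).countable) hfin (fun x y => ind (H.Adj x y)) hθ
    (fun n t s => (∀ i j, t i j = 1 → s i j < k) ∧ (∀ i j, t i j = 1 → s i j = s j i) ∧
      ∀ i j j', t i j = 1 → t i j' = 1 → s i j = s i j' → j = j') (by
      intro x n e he _
      obtain ⟨c, hc⟩ := hcol n e he
      refine ⟨c, ?_, ?_, ?_⟩
      · intro i j h
        exact hc.lt i j (ind_eq.1 h)
      · intro i j h
        exact hc.symm i j (ind_eq.1 h)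
      · intro i j j' h h' h2
        exact hc.inj i j j' (ind_eq.1 h) (ind_eq.1 h') h2)
  beta_reduce at hs3
  refine ⟨s, hs1, ?_, ?_, ?_⟩
  · intro v w h
    obtain ⟨n, e, he, hr, h1, h2, h3⟩ := hs3 v
    obtain ⟨i, hi⟩ : v ∈ range e := by rw [hr]; exact SimpleGraph.Reachable.refl v
    obtain ⟨j, hj⟩ : w ∈ range e := by rw [hr]; exact h.reachable
    have := h1 i j (ind_eq.2 (by rw [hi, hj]; exact h))
    rwa [hi, hj] at this
  · intro v w h
    obtain ⟨n, e, he, hr, h1, h2, h3⟩ := hs3 v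
    obtain ⟨i, hi⟩ : v ∈ range e := by rw [hr]; exact SimpleGraph.Reachable.refl v
    obtain ⟨j, hj⟩ : w ∈ range e := by rw [hr]; exact h.reachable
    have := h2 i j (ind_eq.2 (by rw [hi, hj]; exact h))
    rwa [hi, hj] at this
  · intro v w w' h h' hww
    obtain ⟨n, e, he, hr, h1, h2, h3⟩ := hs3 v
    obtain ⟨i, hi⟩ : v ∈ range e := by rw [hr]; exact SimpleGraph.Reachable.refl v
    obtain ⟨j, hj⟩ : w ∈ range e := by rw [hr]; exact h.reachable
    obtain ⟨j', hj'⟩ : w' ∈ range e := by rw [hr]; exact h'.reachable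
    have := h3 i j j' (ind_eq.2 (by rw [hi, hj]; exact h)) (ind_eq.2 (by rw [hi, hj']; exact h'))
      (by rw [hi, hj, hj']; exact hww)
    rw [← hj, ← hj', this]

/-- the middle part -/
def mid (l : X → ℕ) (W : ℕ) : Set X := {x | 0 < l x ∧ l x < W}

omit [MeasurableSpace X] [StandardBorelSpace X] in
theorem mid_adj {H : SimpleGraph X} {l : X → ℕ} (hlip : ∀ x y, H.Adj x y → l y ≤ l x + 1)
    {W : ℕ} {x y : X} (h1 : 2 ≤ l x) (h2 : l x + 2 ≤ W) (h : H.Adj x y) :
    (rs H (mid l W)).Adj x y := by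
  have h3 := hlip x y h
  have h4 := hlip y x h.symm
  refine ⟨h, ⟨by omega, by omega⟩, ⟨by omega, by omega⟩⟩

/-- **Cutting out bad sets.** -/
theorem cutStep {H : SimpleGraph X} (hH : BG H) (hlf : LF H) {l : X → ℕ} (hl : Measurable l)
    (hlip : ∀ x y, H.Adj x y → l y ≤ l x + 1) (Δ W : ℕ) (hfin : FinC (rs H (mid l W))) :
    ∃ s : X → X → ℕ, Measurable (fun p : X × X => s p.1 p.2) ∧
      (∀ x y, s x y = 1 → s y x = 1) ∧ (∀ x y z, s x y = 1 → s y z = 1 → s x z = 1) ∧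
      (∀ x y, s x y = 1 → (rs H (mid l W)).Reachable x y) ∧
      (∀ x y, s x y = 1 → 5 ≤ l x ∧ l x + 5 ≤ W ∧ (H.neighborSet x).ncard = Δ) ∧
      (∀ x, s x x = 1 →
        {p : X × X | s x p.1 = 1 ∧ s x p.2 ≠ 1 ∧ H.Adj p.1 p.2}.ncard + 2 ≤ Δ) ∧
      ∀ D : Finset X, Odd D.card →
        (∀ x ∈ D, 5 ≤ l x ∧ l x + 5 ≤ W ∧ (H.neighborSet x).ncard = Δ) →
        (∀ x ∈ D, ∀ y ∈ D, (rs H (mid l W)).Reachable x y) →
        {p : X × X | p.1 ∈ D ∧ p.2 ∉ D ∧ H.Adj p.1 p.2}.ncard + 2 ≤ Δ → ∃ x ∈ D, s x x = 1 := by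
  classical
  set Hm := rs H (mid l W) with hHm
  have hmidm : MeasurableSet (mid l W) :=
    (measurableSet_lt measurable_const hl).inter (measurableSet_lt hl measurable_const)
  have hHmB : BG Hm := BG.rs hH hmidm
  have hHmle : Hm ≤ H := rs_le _ _
  have hθ : Measurable fun p : X × X => (ind (Hm.Adj p.1 p.2), l p.1) :=
    (meas_ind hHmB).prodMk (hl.comp measurable_fst)
  obtain ⟨s, hs1, hs2, hs3⟩ := BC (E := Hm.Reachable) (Θ := ℕ × ℕ) (reach_equiv Hm)
    (reach_meas hHmB fun x => ((hlf.mono hHmle) x).countable) hfin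
    (fun x y => (ind (Hm.Adj x y), l x)) hθ
    (fun n t s => ∃ ℱ : Finset (Finset (Fin n)),
      (∀ K ∈ ℱ, Bad (gr fun i j => (t i j).1) (fun i => (t i i).2) Δ W K) ∧
      (∀ K ∈ ℱ, ∀ K' ∈ ℱ, ∀ x, x ∈ K → x ∈ K' → K = K') ∧
      (∀ K, Bad (gr fun i j => (t i j).1) (fun i => (t i i).2) Δ W K →
        ∃ K' ∈ ℱ, ∃ x ∈ K, x ∈ K') ∧
      ∀ i j, s i j = 1 ↔ ∃ K ∈ ℱ, i ∈ K ∧ j ∈ K) (by
      intro x n e _ _
      obtain ⟨ℱ, h1, h2, h3⟩ := badFam (gr fun i j => ind (Hm.Adj (e i) (e j)))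
        (fun i => l (e i)) Δ W
      exact ⟨fun i j => ind (∃ K ∈ ℱ, i ∈ K ∧ j ∈ K), ℱ, h1, h2, h3, fun i j => ind_eq⟩)
  have hE : ∀ x y, s x y = 1 → Hm.Reachable x y := by
    intro x y h
    by_contra h1
    rw [hs2 x y h1] at h
    exact absurd h (by norm_num)
  -- the transfer of bad sets
  have hfull : ∀ {y : X}, 5 ≤ l y → l y + 5 ≤ W → ∀ z, H.Adj y z → Hm.Adj y z := by
    intro y h1 h2 z hyz
    exact mid_adj hlip (by omega) (by omega) hyz
  have htrans : ∀ {x : X} {n : ℕ} {e : Fin n → X}, Function.Injective e →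
      range e = {y | Hm.Reachable x y} → ∀ K : Finset (Fin n),
      (Bad (gr fun i j => ind (Hm.Adj (e i) (e j))) (fun i => l (e i)) Δ W K ↔
      (Odd K.card ∧ (∀ i ∈ K, 5 ≤ l (e i) ∧ l (e i) + 5 ≤ W ∧
        (H.neighborSet (e i)).ncard = Δ) ∧
        {p : X × X | p.1 ∈ e '' K ∧ p.2 ∉ e '' K ∧ H.Adj p.1 p.2}.ncard + 2 ≤ Δ)) := by
    intro x n e he hr K
    unfold Bad
    rw [gr_ind]
    constructor
    · rintro ⟨h1, h2, h3⟩
      refine ⟨h1, fun i hi => ?_, ?_⟩
      · obtain ⟨h4, h5, h6⟩ := h2 i hi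
        rw [dg_comap he hr hHmle i (hfull h4 h5)] at h6
        exact ⟨h4, h5, h6⟩
      · rw [← bd_comap he hr hHmle K fun i hi => hfull (h2 i hi).1 (h2 i hi).2.1]
        exact h3
    · rintro ⟨h1, h2, h3⟩
      refine ⟨h1, fun i hi => ?_, ?_⟩
      · obtain ⟨h4, h5, h6⟩ := h2 i hi
        rw [dg_comap he hr hHmle i (hfull h4 h5)]
        exact ⟨h4, h5, h6⟩
      · rw [bd_comap he hr hHmle K fun i hi => hfull (h2 i hi).1 (h2 i hi).2.1]
        exact h3
  refine ⟨s, hs1, ?_, ?_, hE, ?_, ?_, ?_⟩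
  · intro x y h
    obtain ⟨n, e, he, hr, ℱ, h1, h2, h3, h4⟩ := hs3 x
    obtain ⟨i, rfl⟩ : x ∈ range e := by rw [hr]; exact SimpleGraph.Reachable.refl x
    obtain ⟨j, rfl⟩ : y ∈ range e := by rw [hr]; exact hE _ _ h
    obtain ⟨K, hK, hi, hj⟩ := (h4 i j).1 h
    exact (h4 j i).2 ⟨K, hK, hj, hi⟩
  · intro x y z h h'
    obtain ⟨n, e, he, hr, ℱ, h1, h2, h3, h4⟩ := hs3 x
    obtain ⟨i, rfl⟩ : x ∈ range e := by rw [hr]; exact SimpleGraph.Reachable.refl x
    obtain ⟨j, rfl⟩ : y ∈ range e := by rw [hr]; exact hE _ _ h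
    obtain ⟨j', rfl⟩ : z ∈ range e := by rw [hr]; exact (hE _ _ h).trans (hE _ _ h')
    obtain ⟨K, hK, hi, hj⟩ := (h4 i j).1 h
    obtain ⟨K', hK', hj', hk⟩ := (h4 j j').1 h'
    have := h2 K hK K' hK' j hj hj'
    subst this
    exact (h4 i j').2 ⟨K, hK, hi, hk⟩
  · intro x y h
    obtain ⟨n, e, he, hr, ℱ, h1, h2, h3, h4⟩ := hs3 x
    obtain ⟨i, rfl⟩ : x ∈ range e := by rw [hr]; exact SimpleGraph.Reachable.refl x
    obtain ⟨j, rfl⟩ : y ∈ range e := by rw [hr]; exact hE _ _ h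
    obtain ⟨K, hK, hi, hj⟩ := (h4 i j).1 h
    exact ((htrans he hr K).1 (h1 K hK)).2.1 i hi
  · intro x h
    obtain ⟨n, e, he, hr, ℱ, h1, h2, h3, h4⟩ := hs3 x
    obtain ⟨i, rfl⟩ : x ∈ range e := by rw [hr]; exact SimpleGraph.Reachable.refl x
    obtain ⟨K, hK, hi, -⟩ := (h4 i i).1 h
    have h5 := ((htrans he hr K).1 (h1 K hK)).2.2
    have h6 : {p : X × X | s (e i) p.1 = 1 ∧ s (e i) p.2 ≠ 1 ∧ H.Adj p.1 p.2} =
        {p : X × X | p.1 ∈ e '' K ∧ p.2 ∉ e '' K ∧ H.Adj p.1 p.2} := by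
      have h7 : ∀ z, s (e i) z = 1 ↔ z ∈ e '' K := by
        intro z
        constructor
        · intro hz
          obtain ⟨j, rfl⟩ : z ∈ range e := by rw [hr]; exact hE _ _ hz
          obtain ⟨K', hK', hi', hj'⟩ := (h4 i j).1 hz
          have := h2 K hK K' hK' i hi hi'
          subst this
          exact ⟨j, hj', rfl⟩
        · rintro ⟨j, hj, rfl⟩
          exact (h4 i j).2 ⟨K, hK, hi, hj⟩
      ext p
      simp only [Set.mem_ofPred_eq, ne_eq]
      rw [h7, h7]
    rw [h6]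
    exact h5
  · intro D hodd hD hDr hb
    obtain ⟨x, hx⟩ : D.Nonempty := by
      rw [← Finset.card_pos]
      obtain ⟨a, ha⟩ := hodd
      omega
    obtain ⟨n, e, he, hr, ℱ, h1, h2, h3, h4⟩ := hs3 x
    let K : Finset (Fin n) := Finset.univ.filter fun i => e i ∈ D
    have hKD : e '' K = D := by
      ext z
      constructor
      · rintro ⟨i, hi, rfl⟩
        exact (Finset.mem_filter.1 hi).2
      · intro hz
        obtain ⟨i, rfl⟩ : z ∈ range e := by rw [hr]; exact hDr x hx z hz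
        exact ⟨i, Finset.mem_filter.2 ⟨Finset.mem_univ _, hz⟩, rfl⟩
    have hKc : K.card = D.card := by
      rw [← Set.ncard_coe_finset, ← Set.ncard_coe_finset, ← hKD, ncard_image_of_injective _ he]
    obtain ⟨K', hK', i, hi, hi'⟩ := h3 K ((htrans he hr K).2 ⟨by rw [hKc]; exact hodd,
      fun i hi => hD _ (Finset.mem_filter.1 hi).2, by
        rw [hKD]
        exact hb⟩)
    exact ⟨e i, (Finset.mem_filter.1 hi).2, (h4 i i).2 ⟨K', hK', hi', hi'⟩⟩

end Meas

end Run7.h932
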