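import Pool.Agent.Run7.h932.BC

/-!
# Borel graphs: reachability, level functions
-/

set_option autoImplicit false

namespace Run7.h932

open Set MeasureTheory

variable {X : Type}

/-- the edges of `H` inside `Y` -/
def rs (H : SimpleGraph X) (Y : Set X) : SimpleGraph X where
  Adj x y := H.Adj x y ∧ x ∈ Y ∧ y ∈ Y
  symm := ⟨fun _ _ h => ⟨h.1.symm, h.2.2, h.2.1⟩⟩
  loopless := ⟨fun _ h => h.1.ne rfl⟩

theorem rs_le (H : SimpleGraph X) (Y : Set X) : rs H Y ≤ H := fun _ _ h => h.1

theorem rs_mono {H H' : SimpleGraph X} {Y Y' : Set X} (h : H ≤ H') (hY : Y ⊆ Y') :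
    rs H Y ≤ rs H' Y' := fun _ _ h1 => ⟨h h1.1, hY h1.2.1, hY h1.2.2⟩

/-- finite components -/
def FinC (H : SimpleGraph X) : Prop := ∀ x, {y | H.Reachable x y}.Finite

theorem FinC.mono {H H' : SimpleGraph X} (h : FinC H') (hle : H ≤ H') : FinC H :=
  fun x => (h x).subset fun _ hy => SimpleGraph.Reachable.mono hle hy

theorem reach_equiv (H : SimpleGraph X) : Equivalence H.Reachable :=
  ⟨fun x => SimpleGraph.Reachable.refl x, fun h => h.symm, fun h h' => h.trans h'⟩

/-- a reachable point is equal to the start or both are in the set -/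
theorem reach_rs {H : SimpleGraph X} {Y : Set X} {x y : X} (h : (rs H Y).Reachable x y) :
    x = y ∨ (x ∈ Y ∧ y ∈ Y) := by
  obtain ⟨p⟩ := h
  induction p with
  | nil => exact Or.inl rfl
  | cons h p ih =>
    rcases ih with rfl | h1
    · exact Or.inr h.2
    · exact Or.inr ⟨h.2.1, h1.2⟩

/-- balls are finite -/
theorem fin_ball {G : SimpleGraph X} (hf : ∀ x, (G.neighborSet x).Finite) (n : ℕ) :
    ∀ x, {y | ∃ p : G.Walk x y, p.length ≤ n}.Finite := by
  induction n with
  | zero =>
    intro x
    refine (finite_singleton x).subset ?_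
    rintro y ⟨p, hp⟩
    have : p.length = 0 := by omega
    exact (SimpleGraph.Walk.eq_of_length_eq_zero this).symm
  | succ n ih =>
    intro x
    refine ((finite_singleton x).union ((hf x).biUnion fun z _ => ih z)).subset ?_
    rintro y ⟨p, hp⟩
    cases p with
    | nil => exact Or.inl rfl
    | @cons _ z _ h p =>
      right
      rw [SimpleGraph.Walk.length_cons] at hp
      exact mem_biUnion h ⟨p, by omega⟩

section Meas

variable [MeasurableSpace X] [StandardBorelSpace X]

/-- the edge set is Borel -/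
def BG (H : SimpleGraph X) : Prop := MeasurableSet {p : X × X | H.Adj p.1 p.2}

theorem BG.rs {H : SimpleGraph X} (h : BG H) {Y : Set X} (hY : MeasurableSet Y) :
    BG (Run7.h932.rs H Y) :=
  MeasurableSet.inter h ((hY.preimage measurable_fst).inter (hY.preimage measurable_snd))

/-- reachability is Borel -/
theorem reach_meas {H : SimpleGraph X} (hH : BG H) (hc : ∀ x, (H.neighborSet x).Countable) :
    MeasurableSet {p : X × X | H.Reachable p.1 p.2} := by
  obtain ⟨δ, hδm, hδ⟩ := sec_enum H.Adj hH hc
  let S : ℕ → Set (X × X) := fun n => Nat.rec (motive := fun _ => Set (X × X)) {p | p.1 = p.2}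
    (fun _ T => {p | ∃ m, H.Adj p.1 (δ m p.1) ∧ (δ m p.1, p.2) ∈ T}) n
  have hS0 : S 0 = {p | p.1 = p.2} := rfl
  have hS1 : ∀ n, S (n + 1) = {p | ∃ m, H.Adj p.1 (δ m p.1) ∧ (δ m p.1, p.2) ∈ S n} :=
    fun n => rfl
  have hSm : ∀ n, MeasurableSet (S n) := by
    intro n
    induction n with
    | zero =>
      rw [hS0]
      exact measurableSet_eq_fun measurable_fst measurable_snd
    | succ n ih =>
      rw [hS1]
      have : {p : X × X | ∃ m, H.Adj p.1 (δ m p.1) ∧ (δ m p.1, p.2) ∈ S n} =
          ⋃ m, ({p | H.Adj p.1 (δ m p.1)} ∩ (fun p : X × X => (δ m p.1, p.2)) ⁻¹' S n) := by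
        ext p
        simp
      rw [this]
      refine MeasurableSet.iUnion fun m => MeasurableSet.inter ?_ ?_
      · exact meas_rel hH measurable_fst ((hδm m).comp measurable_fst)
      · exact ih.preimage (((hδm m).comp measurable_fst).prodMk measurable_snd)
  have key : {p : X × X | H.Reachable p.1 p.2} = ⋃ n, S n := by
    ext ⟨x, y⟩
    simp only [mem_iUnion]
    constructor
    · intro (hr : H.Reachable x y)
      obtain ⟨p⟩ := hr
      refine ⟨p.length, ?_⟩
      induction p with
      | nil => exact rfl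
      | @cons a b c h p ih =>
        rw [SimpleGraph.Walk.length_cons, hS1]
        obtain ⟨m, hm⟩ := hδ a b h
        refine ⟨m, ?_, ?_⟩
        · show H.Adj a (δ m a)
          rw [hm]; exact h
        · show (δ m a, c) ∈ S p.length
          rw [hm]; exact ih
    · rintro ⟨n, hn⟩
      induction n generalizing x with
      | zero =>
        have : x = y := hn
        subst this
        exact SimpleGraph.Reachable.refl _
      | succ n ih =>
        rw [hS1] at hn
        obtain ⟨m, h1, h2⟩ := hn
        exact h1.reachable.trans (ih _ h2)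
  rw [key]
  exact MeasurableSet.iUnion hSm

/-- level functions from the separation hypothesis -/
theorem level {G : SimpleGraph X} (hG : BG G) (hf : ∀ x, (G.neighborSet x).Finite)
    (hasi : ∀ r : ℕ, ∃ U : Fin 2 → Set X, (∀ i, MeasurableSet (U i)) ∧ (⋃ i, U i) = Set.univ ∧
        ∀ (i : Fin 2) (x : X),
          {y : X | (SimpleGraph.fromRel (fun a b : X =>
              a ∈ U i ∧ b ∈ U i ∧ ∃ p : G.Walk a b, p.length ≤ r)).Reachable x y}.Finite)
    (w : ℕ) :
    ∃ l : X → ℕ, Measurable l ∧ (∀ x y, G.Adj x y → l y ≤ l x + 1) ∧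
      FinC (rs G {x | l x < w}) ∧ FinC (rs G {x | 0 < l x}) := by
  classical
  obtain ⟨U, hUm, hUc, hUf⟩ := hasi (2 * w + 1)
  obtain ⟨δ, hδm, hδ⟩ := sec_enum G.Adj hG fun x => (hf x).countable
  let B : ℕ → Set X := fun n => Nat.rec (motive := fun _ => Set X) (U 0) (fun _ T => {x | ∃ y, G.Adj x y ∧ y ∈ T}) n
  have hB0 : B 0 = U 0 := rfl
  have hB1 : ∀ n, B (n + 1) = {x | ∃ y, G.Adj x y ∧ y ∈ B n} := fun n => rfl
  have hBm : ∀ n, MeasurableSet (B n) := by
    intro n
    induction n with
    | zero => exact hUm 0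
    | succ n ih =>
      rw [hB1]
      exact ex_meas (R := fun x y => G.Adj x y ∧ y ∈ B n) hδm
        (MeasurableSet.inter hG (ih.preimage measurable_snd)) fun x y h => hδ x y h.1
  have hBw : ∀ n x, x ∈ B n → ∃ u ∈ U 0, ∃ p : G.Walk x u, p.length ≤ n := by
    intro n
    induction n with
    | zero => intro x hx; exact ⟨x, hx, SimpleGraph.Walk.nil, le_rfl⟩
    | succ n ih =>
      intro x hx
      rw [hB1] at hx
      obtain ⟨y, hxy, hy⟩ := hx
      obtain ⟨u, hu, p, hp⟩ := ih y hy
      exact ⟨u, hu, SimpleGraph.Walk.cons hxy p, by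
        rw [SimpleGraph.Walk.length_cons]; omega⟩
  have hex : ∀ x, ∃ n, x ∈ B n ∨ w ≤ n := fun x => ⟨w, Or.inr le_rfl⟩
  let l : X → ℕ := fun x => Nat.find (hex x)
  have hl1 : ∀ x, l x < w → x ∈ B (l x) := by
    intro x hx
    rcases Nat.find_spec (hex x) with h | h
    · exact h
    · exact absurd h (not_le.2 hx)
  have hl0 : ∀ x, 0 < l x → x ∉ U 0 := by
    intro x hx hU
    have : l x ≤ 0 := Nat.find_min' (hex x) (Or.inl hU)
    omega
  refine ⟨l, ?_, ?_, ?_, ?_⟩
  · refine measurable_find (p := fun x n => x ∈ B n ∨ w ≤ n) hex fun k => ?_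
    by_cases hk : w ≤ k
    · have : {x | x ∈ B k ∨ w ≤ k} = univ := by ext x; simp [hk]
      rw [this]; exact MeasurableSet.univ
    · have : {x | x ∈ B k ∨ w ≤ k} = B k := by ext x; simp [hk]
      rw [this]; exact hBm k
  · intro x y hxy
    apply Nat.find_min' (hex y)
    rcases Nat.find_spec (hex x) with h | h
    · left
      rw [hB1]
      exact ⟨x, hxy.symm, h⟩
    · right
      exact le_trans h (Nat.le_succ _)
  · -- the left part
    intro x
    by_cases hx : l x < w
    · have hxB := hl1 x hx
      choose! u hu1 p hp using fun (z : X) (hz : l z < w) => hBw (l z) z (hl1 z hz)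
      set Γ := SimpleGraph.fromRel (fun a b : X =>
              a ∈ U 0 ∧ b ∈ U 0 ∧ ∃ p : G.Walk a b, p.length ≤ 2 * w + 1) with hΓ
      have hreach : ∀ {a b}, (rs G {x | l x < w}).Reachable a b → l a < w →
          Γ.Reachable (u a) (u b) := by
        rintro a b ⟨q⟩ ha
        induction q with
        | nil => exact SimpleGraph.Reachable.refl _
        | @cons a b c h q ih =>
          have hb : l b < w := h.2.2
          refine SimpleGraph.Reachable.trans ?_ (ih hb)
          by_cases hab : u a = u b
          · rw [hab]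
          · refine SimpleGraph.Adj.reachable ?_
            rw [hΓ, SimpleGraph.fromRel_adj]
            refine ⟨hab, Or.inl ⟨hu1 a ha, hu1 b hb,
              ((p a ha).reverse.append (SimpleGraph.Walk.cons h.1 (p b hb))), ?_⟩⟩
            rw [SimpleGraph.Walk.length_append, SimpleGraph.Walk.length_reverse,
              SimpleGraph.Walk.length_cons]
            have h1 := hp a ha
            have h2 := hp b hb
            omega
      refine ((finite_singleton x).union ((hUf 0 (u x)).biUnion fun z _ =>
        fin_ball hf w z)).subset ?_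
      intro y hy
      rcases reach_rs hy with rfl | hy2
      · exact Or.inl rfl
      · right
        have hyw : l y < w := hy2.2
        refine mem_biUnion (hreach hy hx) ⟨(p y hyw).reverse, ?_⟩
        rw [SimpleGraph.Walk.length_reverse]
        have := hp y hyw
        omega
    · refine (finite_singleton x).subset fun y hy => ?_
      rcases reach_rs hy with h | h
      · exact h.symm
      · exact absurd h.1 hx
  · -- the right part
    intro x
    refine (hUf 1 x).subset fun y hy => ?_
    refine SimpleGraph.Reachable.mono ?_ hy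
    intro a b hab
    have hU1 : ∀ z, 0 < l z → z ∈ U 1 := by
      intro z hz
      have h1 := hl0 z hz
      have h2 : z ∈ ⋃ i, U i := by rw [hUc]; trivial
      obtain ⟨i, hi⟩ := mem_iUnion.1 h2
      fin_cases i
      · exact absurd hi h1
      · exact hi
    rw [SimpleGraph.fromRel_adj]
    refine ⟨hab.1.ne, Or.inl ⟨hU1 _ hab.2.1, hU1 _ hab.2.2,
      SimpleGraph.Walk.cons hab.1 SimpleGraph.Walk.nil, ?_⟩⟩
    simp

end Meas

end Run7.h932
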