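import Pool.Agent.Run7.h932.Peel

/-!
# The induction
-/

set_option autoImplicit false

namespace Run7.h932

open Set MeasureTheory SimpleGraph Pool.Q11.TwoEnd Pool.Q6.CI

/-- Extension from a small coloured boundary: a finite graph `K` in which the edges at `i` have to
avoid the colours in `Φ i`, with palette `Δ + 1`. -/
def LemP (Δ : ℕ) : Prop :=
  ∀ (n : ℕ) (K : SimpleGraph (Fin n)) (Φ : Fin n → Finset ℕ),
    (∀ i, Φ i ⊆ Finset.range (Δ + 1)) → (∀ i, dg K i + (Φ i).card ≤ Δ) →
    (∑ i, (Φ i).card) + 2 ≤ Δ →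
    ∃ c : Fin n → Fin n → ℕ, PC K (Δ + 1) c ∧ ∀ i j, K.Adj i j → c i j ∉ Φ i

variable {X : Type} [MeasurableSpace X] [StandardBorelSpace X]

/-- colouring the edges that were cut out -/
theorem glue {H : SimpleGraph X} (hH : BG H) (hlf : LF H) {s : X → X → ℕ}
    (hsm : Measurable (fun p : X × X => s p.1 p.2)) (hss : ∀ x y, s x y = 1 → s y x = 1)
    (hst : ∀ x y z, s x y = 1 → s y z = 1 → s x z = 1)
    (hsf : ∀ x, {y | s x y = 1}.Finite) {Δ : ℕ}
    (hsd : ∀ x y, s x y = 1 → (H.neighborSet x).ncard = Δ)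
    (hsb : ∀ x, s x x = 1 →
        {p : X × X | s x p.1 = 1 ∧ s x p.2 ≠ 1 ∧ H.Adj p.1 p.2}.ncard + 2 ≤ Δ)
    (hP : LemP Δ) (hcol : BCol (mn H fun x y => s x y = 1) (Δ + 1)) : BCol H (Δ + 1) := by
  classical
  set Ho := mn H fun x y => s x y = 1 with hHo
  obtain ⟨c0, hc0m, hc0⟩ := hcol
  have hmS : MeasurableSet {p : X × X | s p.1 p.2 = 1} := measurableSet_eq_fun hsm measurable_const
  have hmS' : MeasurableSet {p : X × X | s p.2 p.1 = 1} :=
    measurableSet_eq_fun (hsm.comp (measurable_snd.prodMk measurable_fst)) measurable_const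
  have hHoB : BG Ho := MeasurableSet.inter hH (hmS.compl.inter hmS'.compl)
  let Hc : SimpleGraph X := ⟨fun x y => H.Adj x y ∧ s x y = 1,
    ⟨fun x y h => ⟨h.1.symm, hss x y h.2⟩⟩, ⟨fun x h => h.1.ne rfl⟩⟩
  have hHcle : Hc ≤ H := fun x y h => h.1
  have hHcB : BG Hc := MeasurableSet.inter hH hmS
  have hHcr : ∀ {x y}, Hc.Reachable x y → x = y ∨ s x y = 1 := by
    rintro x y ⟨p⟩
    induction p with
    | nil => exact Or.inl rfl
    | cons h p ih =>
      rcases ih with rfl | h1
      · exact Or.inr h.2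
      · exact Or.inr (hst _ _ _ h.2 h1)
  have hHcfin : FinC Hc := by
    intro x
    refine ((finite_singleton x).union (hsf x)).subset fun y hy => ?_
    rcases hHcr hy with h | h
    · exact Or.inl h.symm
    · exact Or.inr h
  obtain ⟨δ, hδm, hδ⟩ := sec_enum H.Adj hH fun x => (hlf x).countable
  have hθ2 : Measurable fun p : X × X => fun a : Fin (Δ + 1) =>
      ind (∃ z, Ho.Adj p.1 z ∧ c0 p.1 z = a) := by
    refine measurable_pi_lambda _ fun a => ?_
    refine meas_ind (P := fun p : X × X => ∃ z, Ho.Adj p.1 z ∧ c0 p.1 z = a) ?_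
    have h1 : MeasurableSet {x | ∃ z, Ho.Adj x z ∧ c0 x z = a} :=
      ex_meas (R := fun x z => Ho.Adj x z ∧ c0 x z = a) hδm
        (MeasurableSet.inter hHoB (measurableSet_eq_fun hc0m measurable_const))
        fun x y h => hδ x y h.1.1
    exact h1.preimage measurable_fst
  have hθ : Measurable fun p : X × X => (ind (Hc.Adj p.1 p.2), fun a : Fin (Δ + 1) =>
      ind (∃ z, Ho.Adj p.1 z ∧ c0 p.1 z = a)) := (meas_ind hHcB).prodMk hθ2
  obtain ⟨s', hs1, hs2, hs3⟩ := BC (E := Hc.Reachable) (Θ := ℕ × (Fin (Δ + 1) → ℕ))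
    (reach_equiv Hc) (reach_meas hHcB fun x => ((hlf.mono hHcle) x).countable) hHcfin
    (fun x y => (ind (Hc.Adj x y), fun a : Fin (Δ + 1) => ind (∃ z, Ho.Adj x z ∧ c0 x z = a))) hθ
    (fun n t s' => PC (gr fun i j => (t i j).1) (Δ + 1) s' ∧
      ∀ i j, (gr fun i j => (t i j).1).Adj i j → ∀ a : Fin (Δ + 1), (t i i).2 a = 1 →
        s' i j ≠ a) (by
      intro x n e he hr
      beta_reduce
      show ∃ s' : Fin n → Fin n → ℕ, PC (gr fun i j => ind (Hc.Adj (e i) (e j))) (Δ + 1) s' ∧
        ∀ i j, (gr fun i j => ind (Hc.Adj (e i) (e j))).Adj i j → ∀ a : Fin (Δ + 1),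
          ind (∃ z, Ho.Adj (e i) z ∧ c0 (e i) z = a) = 1 → s' i j ≠ a
      rw [gr_ind]
      set K := Hc.comap e with hK
      by_cases hx : ∃ i, s (e i) (e i) = 1
      · obtain ⟨i0, hi0⟩ := hx
        have hall : ∀ j, s (e i0) (e j) = 1 := by
          intro j
          have h1 : ∀ i, Hc.Reachable x (e i) := by
            intro i
            have : e i ∈ range e := ⟨i, rfl⟩
            rw [hr] at this
            exact this
          rcases hHcr ((h1 i0).symm.trans (h1 j)) with h | h
          · rw [← h]; exact hi0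
          · exact h
        let Φ : Fin n → Finset ℕ := fun i => (Finset.range (Δ + 1)).filter fun a =>
          ∃ z, Ho.Adj (e i) z ∧ c0 (e i) z = a
        have hΦc : ∀ i, (Φ i).card ≤ (Ho.neighborSet (e i)).ncard := by
          intro i
          have hfinN : (Ho.neighborSet (e i)).Finite := (hlf.mono (mn_le _ _)) _
          have h1 : ((Φ i : Finset ℕ) : Set ℕ) ⊆ c0 (e i) '' (Ho.neighborSet (e i)) := by
            intro a ha
            obtain ⟨-, z, hz1, hz2⟩ := Finset.mem_filter.1 (Finset.mem_coe.1 ha)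
            exact ⟨z, hz1, hz2⟩
          rw [← Set.ncard_coe_finset]
          exact (ncard_le_ncard h1 (hfinN.image _)).trans (ncard_image_le hfinN)
        have hdeg : ∀ i, dg K i + (Ho.neighborSet (e i)).ncard ≤ Δ := by
          intro i
          have h1 := hsd (e i) (e i0) (hss _ _ (hall i))
          have h2 : dg K i = (e '' {j | K.Adj i j}).ncard := by
            rw [ncard_image_of_injective _ he]
            unfold dg
            rw [← Set.ncard_coe_finset]
            congr 1
            ext j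
            simp
          have h3 : Disjoint (e '' {j | K.Adj i j}) (Ho.neighborSet (e i)) := by
            rw [Set.disjoint_left]
            rintro y ⟨j, hj, rfl⟩ hy
            exact hy.2.1 hj.2
          rw [h2, ← ncard_union_eq h3 (Set.toFinite _) ((hlf.mono (mn_le _ _)) _), ← h1]
          refine ncard_le_ncard ?_ (hlf _)
          rintro y (⟨j, hj, rfl⟩ | hy)
          · exact hj.1
          · exact hy.1
        have hPfin : {p : X × X | s (e i0) p.1 = 1 ∧ s (e i0) p.2 ≠ 1 ∧ H.Adj p.1 p.2}.Finite := by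
          refine ((hsf (e i0)).biUnion fun y _ => (hlf y).image fun z => (y, z)).subset ?_
          rintro ⟨a, b⟩ ⟨h1, h2, h3⟩
          exact mem_biUnion h1 ⟨b, h3, rfl⟩
        have hsum : ∑ i, (Φ i).card + 2 ≤ Δ := by
          have h1 : ∑ i, (Φ i).card ≤ ∑ i, (Ho.neighborSet (e i)).ncard :=
            Finset.sum_le_sum fun i _ => hΦc i
          have h2 : ∑ i, (Ho.neighborSet (e i)).ncard ≤
              {p : X × X | s (e i0) p.1 = 1 ∧ s (e i0) p.2 ≠ 1 ∧ H.Adj p.1 p.2}.ncard := by
            have hlfo : LF Ho := hlf.mono (mn_le _ _)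
            have h3 : ∀ i, (Ho.neighborSet (e i)).ncard = ((hlfo (e i)).toFinset).card :=
              fun i => ncard_eq_toFinset_card _ (hlfo (e i))
            rw [Finset.sum_congr rfl fun i _ => h3 i, ← Finset.card_sigma,
              ncard_eq_toFinset_card _ hPfin]
            refine Finset.card_le_card_of_injOn (fun q => (e q.1, q.2)) ?_ ?_
            · rintro ⟨i, z⟩ hq
              obtain ⟨-, hq2⟩ := Finset.mem_sigma.1 (Finset.mem_coe.1 hq)
              have hz : Ho.Adj (e i) z := (hlfo (e i)).mem_toFinset.1 hq2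
              refine Finset.mem_coe.2 (hPfin.mem_toFinset.2 ⟨hall i, ?_, hz.1⟩)
              intro h4
              exact hz.2.1 (hst _ _ _ (hss _ _ (hall i)) h4)
            · rintro ⟨i, z⟩ - ⟨i', z'⟩ - h4
              simp only [Prod.mk.injEq] at h4
              obtain ⟨h5, h6⟩ := h4
              have h7 := he h5
              subst h7
              subst h6
              rfl
          have h3 := hsb (e i0) hi0
          omega
        obtain ⟨c, hc1, hc2⟩ := hP n K Φ (fun i => Finset.filter_subset _ _)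
          (fun i => by have := hdeg i; have := hΦc i; omega) hsum
        refine ⟨c, hc1, ?_⟩
        intro i j hij a ha heq
        apply hc2 i j hij
        rw [heq]
        exact Finset.mem_filter.2 ⟨Finset.mem_range.2 a.2, ind_eq.1 ha⟩
      · have hno : ∀ i j, ¬ K.Adj i j := by
          intro i j hij
          exact hx ⟨i, hst _ _ _ hij.2 (hss _ _ hij.2)⟩
        exact ⟨fun _ _ => 0, ⟨fun i j h => absurd h (hno i j), fun i j h => absurd h (hno i j),
          fun i j j' h => absurd h (hno i j)⟩, fun i j h => absurd h (hno i j)⟩)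
  have hloc : ∀ x, ∃ (n : ℕ) (e : Fin n → X), Function.Injective e ∧
      range e = {y | Hc.Reachable x y} ∧
      PC (Hc.comap e) (Δ + 1) (fun i j => s' (e i) (e j)) ∧
      ∀ i j, (Hc.comap e).Adj i j → ∀ a : Fin (Δ + 1), (∃ z, Ho.Adj (e i) z ∧ c0 (e i) z = a) →
        s' (e i) (e j) ≠ a := by
    intro x
    obtain ⟨n, e, he, hr, h1, h2⟩ := hs3 x
    refine ⟨n, e, he, hr, ?_, ?_⟩
    · rw [← gr_ind]; exact h1
    · intro i j hij a ha
      rw [← gr_ind] at hij
      exact h2 i j hij a (ind_eq.2 ha)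
  -- the properties of the new colours
  have hN1 : ∀ x y, Hc.Adj x y → s' x y < Δ + 1 ∧ s' x y = s' y x ∧
      (∀ z, Ho.Adj x z → c0 x z ≠ s' x y) ∧ ∀ y', Hc.Adj x y' → s' x y = s' x y' → y = y' := by
    intro x y h
    obtain ⟨n, e, he, hr, h1, h2⟩ := hloc x
    obtain ⟨i, rfl⟩ : x ∈ range e := by rw [hr]; exact SimpleGraph.Reachable.refl x
    obtain ⟨j, rfl⟩ : y ∈ range e := by rw [hr]; exact h.reachable
    refine ⟨h1.lt i j h, h1.symm i j h, ?_, ?_⟩
    · intro z hz hzz
      have h3 := hc0.lt _ _ hz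
      exact h2 i j h ⟨c0 (e i) z, h3⟩ ⟨z, hz, rfl⟩ hzz.symm
    · intro y' h' heq
      obtain ⟨j', rfl⟩ : y' ∈ range e := by rw [hr]; exact h'.reachable
      rw [h1.inj i j j' h h' heq]
  refine ⟨fun x y => if Hc.Adj x y then s' x y else c0 x y, Measurable.ite hHcB hs1 hc0m, ?_⟩
  have hcase : ∀ x y, H.Adj x y → Hc.Adj x y ∨ (¬ Hc.Adj x y ∧ ¬ Hc.Adj y x ∧ Ho.Adj x y) := by
    intro x y h
    by_cases h1 : s x y = 1
    · exact Or.inl ⟨h, h1⟩
    · right
      have h2 : s y x ≠ 1 := fun h2 => h1 (hss _ _ h2)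
      exact ⟨fun h3 => h1 h3.2, fun h3 => h2 h3.2, h, h1, h2⟩
  refine ⟨?_, ?_, ?_⟩
  · intro x y h
    rcases hcase x y h with h1 | ⟨h1, h2, h3⟩
    · rw [if_pos h1]; exact (hN1 x y h1).1
    · rw [if_neg h1]; exact hc0.lt _ _ h3
  · intro x y h
    beta_reduce
    rcases hcase x y h with h1 | ⟨h1, h2, h3⟩
    · rw [if_pos h1, if_pos h1.symm]; exact (hN1 x y h1).2.1
    · rw [if_neg h1, if_neg h2]; exact hc0.symm _ _ h3
  · intro x y y' h h' heq
    beta_reduce at heq
    rcases hcase x y h with h1 | ⟨h1, h2, h3⟩ <;> rcases hcase x y' h' with h1' | ⟨h1', h2', h3'⟩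
    · rw [if_pos h1, if_pos h1'] at heq
      exact (hN1 x y h1).2.2.2 y' h1' heq
    · rw [if_pos h1, if_neg h1'] at heq
      exact absurd heq.symm ((hN1 x y h1).2.2.1 y' h3')
    · rw [if_neg h1, if_pos h1'] at heq
      exact absurd heq ((hN1 x y' h1').2.2.1 y h3)
    · rw [if_neg h1, if_neg h1'] at heq
      exact hc0.inj _ _ _ h3 h3' heq

/-- **The induction.** -/
theorem mainP (D : ℕ) (hP : ∀ Δ, 1 ≤ Δ → Δ ≤ D → LemP Δ) :
    ∀ Δ, Δ ≤ D → ∀ H : SimpleGraph X, BG H → LF H → ∀ l : X → ℕ, Measurable l →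
      (∀ x y, H.Adj x y → l y ≤ l x + 1) → FinC (rs H {x | l x < 8 * Δ}) →
      FinC (rs H {x | 0 < l x}) →
      (∀ x, 0 < l x → l x < 8 * Δ → (H.neighborSet x).ncard ≤ Δ) → FCol H (Δ + 1) →
      BCol H (Δ + 1) := by
  classical
  intro Δ
  induction Δ with
  | zero =>
    intro _ H hH hlf l hl hlip hf1 hf2 hdeg hcol
    refine ⟨fun _ _ => 0, measurable_const, fun _ _ _ => by norm_num, fun _ _ _ => rfl, ?_⟩
    intro v w w' h h' _
    by_contra hne
    have hinj : Function.Injective ![v, w, w'] := by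
      intro i j hij
      have h1 := h.ne
      have h2 := h'.ne
      fin_cases i <;> fin_cases j <;> simp_all
    obtain ⟨c, hc⟩ := hcol 3 ![v, w, w'] hinj
    have h1 := hc.lt 0 1 h
    have h2 := hc.lt 0 2 h'
    have h3 := hc.inj 0 1 2 h h' (by omega)
    exact absurd h3 (by decide)
  | succ Δ ih =>
    intro hΔD H hH hlf l hl hlip hf1 hf2 hdeg hcol
    have hfm : FinC (rs H (mid l (8 * (Δ + 1)))) := hf1.mono (rs_mono le_rfl fun x hx => hx.2)
    obtain ⟨s, hsm, hss, hst, hsr, hsd, hsb, hsmax⟩ :=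
      cutStep hH hlf hl hlip (Δ + 1) (8 * (Δ + 1)) hfm
    have hsf : ∀ x, {y | s x y = 1}.Finite := fun x => (hfm x).subset fun y hy => hsr x y hy
    refine glue hH hlf hsm hss hst hsf (fun x y h => (hsd x y h).2.2) hsb
      (hP (Δ + 1) (by omega) hΔD) ?_
    set Ho := mn H fun x y => s x y = 1 with hHo
    have hHole : Ho ≤ H := mn_le _ _
    have hmS : MeasurableSet {p : X × X | s p.1 p.2 = 1} :=
      measurableSet_eq_fun hsm measurable_const
    have hmS' : MeasurableSet {p : X × X | s p.2 p.1 = 1} :=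
      measurableSet_eq_fun (hsm.comp (measurable_snd.prodMk measurable_fst)) measurable_const
    have hHoB : BG Ho := MeasurableSet.inter hH (hmS.compl.inter hmS'.compl)
    have hlfo : LF Ho := hlf.mono hHole
    have hdego : ∀ x, 0 < l x → l x < 8 * (Δ + 1) → (Ho.neighborSet x).ncard ≤ Δ + 1 :=
      fun x h1 h2 => (ncard_le_ncard (fun y hy => (hHole hy : H.Adj _ _)) (hlf x)).trans
        (hdeg x h1 h2)
    obtain ⟨L, hLm, hLM, hLc, hLf⟩ := peelStep hHoB hlfo hl (fun x y h => hlip x y (hHole h))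
      (Δ := Δ + 1) (W := 8 * (Δ + 1)) (by omega) (by omega)
      (hf1.mono (rs_mono hHole (Subset.refl _))) (hf2.mono (rs_mono hHole (Subset.refl _)))
      hdego (hcol.mono hHole) (by
        intro D hodd hD hDr hb
        have hDn : ∀ x ∈ D, (H.neighborSet x).ncard = Δ + 1 ∧ ∀ y, H.Adj x y → Ho.Adj x y := by
          intro x hx
          obtain ⟨h1, h2, h3⟩ := hD x hx
          have h4 := hdeg x (by omega) (by omega)
          have h5 : Ho.neighborSet x ⊆ H.neighborSet x := fun y hy => hHole hy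
          have h6 := ncard_le_ncard h5 (hlf x)
          have h7 : Ho.neighborSet x = H.neighborSet x :=
            Set.eq_of_subset_of_ncard_le h5 (by omega) (hlf x)
          refine ⟨by omega, fun y hy => ?_⟩
          have : y ∈ Ho.neighborSet x := by rw [h7]; exact hy
          exact this
        have hbe : {p : X × X | p.1 ∈ D ∧ p.2 ∉ D ∧ H.Adj p.1 p.2} =
            {p : X × X | p.1 ∈ D ∧ p.2 ∉ D ∧ Ho.Adj p.1 p.2} := by
          ext p
          exact ⟨fun h => ⟨h.1, h.2.1, (hDn _ h.1).2 _ h.2.2⟩, fun h => ⟨h.1, h.2.1, hHole h.2.2⟩⟩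
        obtain ⟨x, hx, hsx⟩ := hsmax D hodd (fun x hx => ⟨(hD x hx).1, (hD x hx).2.1,
          (hDn x hx).1⟩) (fun x hx y hy => SimpleGraph.Reachable.mono
            (rs_mono hHole (Subset.refl _)) (hDr x hx y hy)) (by rw [hbe]; exact hb)
        have h1 := hsb x hsx
        have hPfin : {p : X × X | s x p.1 = 1 ∧ s x p.2 ≠ 1 ∧ H.Adj p.1 p.2}.Finite := by
          refine ((hsf x).biUnion fun y _ => (hlf y).image fun z => (y, z)).subset ?_
          rintro ⟨a, b⟩ ⟨h1, h2, h3⟩
          exact mem_biUnion h1 ⟨b, h3, rfl⟩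
        have h2 : (fun z => (x, z)) '' (H.neighborSet x) ⊆
            {p : X × X | s x p.1 = 1 ∧ s x p.2 ≠ 1 ∧ H.Adj p.1 p.2} := by
          rintro _ ⟨z, hz, rfl⟩
          exact ⟨hsx, ((hDn x hx).2 z hz).2.1, hz⟩
        have h3 := ncard_le_ncard h2 hPfin
        rw [ncard_image_of_injective _ (Prod.mk_right_injective x), (hDn x hx).1] at h3
        omega)
    -- the rest
    set H1 := mn Ho L with hH1
    have hH1le : H1 ≤ Ho := mn_le _ _
    have hLm' : MeasurableSet {p : X × X | L p.2 p.1} :=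
      hLm.preimage (measurable_snd.prodMk measurable_fst)
    have hH1B : BG H1 := MeasurableSet.inter hHoB (hLm.compl.inter hLm'.compl)
    have hl' : Measurable fun x => l x - 4 := hl.sub_const 4
    obtain ⟨c1, hc1m, hc1⟩ := ih (by omega) H1 hH1B (hlfo.mono hH1le) (fun x => l x - 4) hl'
      (fun x y h => by have := hlip x y (hHole (hH1le h)); omega)
      (hf1.mono (rs_mono (hH1le.trans hHole) fun x hx => by
        have hx' : l x - 4 < 8 * Δ := hx
        show l x < 8 * (Δ + 1)
        omega))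
      (hf2.mono (rs_mono (hH1le.trans hHole) fun x hx => by
        have hx' : 0 < l x - 4 := hx
        show 0 < l x
        omega))
      (fun x h1 h2 => by
        have h1' : 0 < l x - 4 := h1
        have h2' : l x - 4 < 8 * Δ := h2
        have h3 := hdego x (by omega) (by omega)
        have h5 : H1.neighborSet x ⊆ Ho.neighborSet x := fun y hy => hH1le hy
        by_cases h4 : (Ho.neighborSet x).ncard = Δ + 1
        · obtain ⟨y, hy⟩ := hLc x (by omega) (by omega) h4
          have h6 : (H1.neighborSet x).ncard < (Ho.neighborSet x).ncard := by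
            refine ncard_lt_ncard ⟨h5, fun hsub => ?_⟩ (hlfo x)
            have h7 : y ∈ H1.neighborSet x := hsub (hLM.adj x y hy)
            exact h7.2.1 hy
          omega
        · have h6 := ncard_le_ncard h5 (hlfo x)
          omega) hLf
    refine ⟨fun x y => if L x y then Δ + 1 else c1 x y, Measurable.ite hLm measurable_const hc1m,
      ?_, ?_, ?_⟩
    · intro x y h
      by_cases h1 : L x y
      · rw [if_pos h1]; omega
      · rw [if_neg h1]
        have := hc1.lt x y ⟨h, h1, fun h2 => h1 (hLM.symm _ _ h2)⟩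
        omega
    · intro x y h
      by_cases h1 : L x y
      · rw [if_pos h1, if_pos (hLM.symm _ _ h1)]
      · have h2 : ¬ L y x := fun h2 => h1 (hLM.symm _ _ h2)
        rw [if_neg h1, if_neg h2]
        exact hc1.symm x y ⟨h, h1, h2⟩
    · intro x y y' h h' heq
      beta_reduce at heq
      by_cases h1 : L x y <;> by_cases h1' : L x y'
      · exact hLM.uniq x y y' h1 h1'
      · rw [if_pos h1, if_neg h1'] at heq
        have := hc1.lt x y' ⟨h', h1', fun h2 => h1' (hLM.symm _ _ h2)⟩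
        omega
      · rw [if_neg h1, if_pos h1'] at heq
        have := hc1.lt x y ⟨h, h1, fun h2 => h1 (hLM.symm _ _ h2)⟩
        omega
      · rw [if_neg h1, if_neg h1'] at heq
        exact hc1.inj x y y' ⟨h, h1, fun h2 => h1 (hLM.symm _ _ h2)⟩
          ⟨h', h1', fun h2 => h1' (hLM.symm _ _ h2)⟩ heq

/-- **The theorem for regular graphs, from the extension property.** -/
theorem final (d : ℕ) (hP : ∀ Δ, 1 ≤ Δ → Δ ≤ d → LemP Δ) (G : SimpleGraph X)
    (hG : MeasurableSet {p : X × X | G.Adj p.1 p.2})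
    (hd : ∀ x : X, (G.neighborSet x).encard ≤ (d : ℕ∞))
    (hasi : ∀ r : ℕ, ∃ U : Fin 2 → Set X, (∀ i, MeasurableSet (U i)) ∧ (⋃ i, U i) = Set.univ ∧
        ∀ (i : Fin 2) (x : X),
          {y : X | (SimpleGraph.fromRel (fun a b : X =>
              a ∈ U i ∧ b ∈ U i ∧ ∃ p : G.Walk a b, p.length ≤ r)).Reachable x y}.Finite) :
    ∃ c : X × X → ℕ, Measurable c ∧
        (∀ x y : X, G.Adj x y → c (x, y) < d + 1 ∧ c (x, y) = c (y, x)) ∧
        ∀ x y z : X, G.Adj x y → G.Adj x z → y ≠ z → c (x, y) ≠ c (x, z) := by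
  classical
  have hlf : LF G := fun x => Set.finite_of_encard_le_coe (hd x)
  have hdeg : ∀ x, (G.neighborSet x).ncard ≤ d := by
    intro x
    have h1 := hd x
    rw [← (hlf x).cast_ncard_eq] at h1
    exact_mod_cast h1
  obtain ⟨l, hl1, hl2, hl3, hl4⟩ := level hG hlf hasi (8 * d)
  have hcol : FCol G (d + 1) := by
    intro n e he
    exact vizing fun v => (dg_comap_le he le_rfl hlf v).trans (hdeg _)
  obtain ⟨c, hc1, hc2⟩ := mainP d hP d le_rfl G hG hlf l hl1 hl2 hl3 hl4
    (fun x _ _ => hdeg x) hcol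
  refine ⟨fun p => c p.1 p.2, hc1, fun x y h => ⟨hc2.lt x y h, hc2.symm x y h⟩, ?_⟩
  intro x y z h h' hne heq
  exact hne (hc2.inj x y z h h' heq)

end Run7.h932
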