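import Pool.Agent.Run7.h932.Cut

/-!
# Peeling off one matching
-/

set_option autoImplicit false

namespace Run7.h932

open Set MeasureTheory SimpleGraph Pool.Q11.TwoEnd Pool.Q6.CI

theorem bd_eq {V : Type} [Fintype V] (G : SimpleGraph V) (D : Finset V) :
    bd G D = {p : V × V | p.1 ∈ D ∧ p.2 ∉ D ∧ G.Adj p.1 p.2}.ncard := by
  classical
  unfold bd
  rw [← Set.ncard_coe_finset]
  congr 1
  ext q
  simp

/-- parity of the boundary of an odd set of full vertices -/
theorem bd_parity {V : Type} [Fintype V] (G : SimpleGraph V) (D : Finset V) {Δ : ℕ}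
    (h : ∀ x ∈ D, dg G x = Δ) (hodd : Odd D.card) (hlt : bd G D < Δ) : bd G D + 2 ≤ Δ := by
  classical
  let S : Finset (V × V) := Finset.univ.filter fun p => p.1 ∈ D ∧ G.Adj p.1 p.2
  let I : Finset (V × V) := Finset.univ.filter fun p => p.1 ∈ D ∧ p.2 ∈ D ∧ G.Adj p.1 p.2
  let B : Finset (V × V) := Finset.univ.filter fun p => p.1 ∈ D ∧ p.2 ∉ D ∧ G.Adj p.1 p.2
  have hB : bd G D = B.card := by unfold bd; congr
  have hS : S.card = D.card * Δ := by
    have h1 : S.card = ∑ x ∈ D, dg G x := by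
      have h2 : ∑ a ∈ D, dg G a = (D.sigma fun a => Finset.univ.filter fun w => G.Adj a w).card := by
        rw [Finset.card_sigma]; rfl
      rw [h2]
      refine Finset.card_bij (fun p _ => (⟨p.1, p.2⟩ : Σ _ : V, V)) ?_ ?_ ?_
      · intro p hp
        obtain ⟨-, h3, h4⟩ := Finset.mem_filter.1 hp
        exact Finset.mem_sigma.2 ⟨h3, Finset.mem_filter.2 ⟨Finset.mem_univ _, h4⟩⟩
      · rintro ⟨a, b⟩ - ⟨a', b'⟩ - hab
        simp only [Sigma.mk.injEq, heq_eq_eq] at hab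
        rw [Prod.mk.injEq]
        exact hab
      · rintro ⟨a, b⟩ hab
        obtain ⟨h3, h4⟩ := Finset.mem_sigma.1 hab
        exact ⟨(a, b), Finset.mem_filter.2 ⟨Finset.mem_univ _, h3, (Finset.mem_filter.1 h4).2⟩, rfl⟩
    rw [h1, Finset.sum_congr rfl h, Finset.sum_const, smul_eq_mul]
  have hSI : S.card = I.card + B.card := by
    rw [← Finset.card_union_of_disjoint]
    · congr 1
      ext p
      simp only [S, I, B, Finset.mem_filter, Finset.mem_union, Finset.mem_univ, true_and]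
      tauto
    · rw [Finset.disjoint_left]
      intro p hp hp'
      exact (Finset.mem_filter.1 hp').2.2.1 (Finset.mem_filter.1 hp).2.2.1
  have hI : Even I.card := by
    rw [← ZMod.natCast_eq_zero_iff_even]
    have h1 : (I.card : ZMod 2) = ∑ _p ∈ I, (1 : ZMod 2) := by simp
    rw [h1]
    refine Finset.sum_involution (fun p _ => (p.2, p.1)) ?_ ?_ ?_ ?_
    · intro a _; decide
    · rintro ⟨a, b⟩ hab - heq
      rw [Prod.mk.injEq] at heq
      have := (Finset.mem_filter.1 hab).2.2.2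
      simp only at this
      exact this.ne heq.2
    · rintro ⟨a, b⟩ hab
      obtain ⟨-, h3, h4, h5⟩ := Finset.mem_filter.1 hab
      exact Finset.mem_filter.2 ⟨Finset.mem_univ _, h4, h3, h5.symm⟩
    · rintro ⟨a, b⟩ -; rfl
  obtain ⟨i, hi⟩ := hI
  obtain ⟨k, hk⟩ := hodd
  rw [hB] at hlt ⊢
  have h1 : D.card * Δ = 2 * i + B.card := by rw [← hS, hSI]; omega
  rw [hk] at h1
  have h2 : (2 * k + 1) * Δ = 2 * (k * Δ) + Δ := by ring
  rw [h2] at h1
  omega

variable {X : Type}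

/-- removing the edges of a relation -/
def mn (H : SimpleGraph X) (L : X → X → Prop) : SimpleGraph X where
  Adj x y := H.Adj x y ∧ ¬ L x y ∧ ¬ L y x
  symm := ⟨fun _ _ h => ⟨h.1.symm, h.2.2, h.2.1⟩⟩
  loopless := ⟨fun _ h => h.1.ne rfl⟩

theorem mn_le (H : SimpleGraph X) (L : X → X → Prop) : mn H L ≤ H := fun _ _ h => h.1

variable [MeasurableSpace X] [StandardBorelSpace X]

/-- **Peeling off one matching.** -/
theorem peelStep {H : SimpleGraph X} (hH : BG H) (hlf : LF H) {l : X → ℕ} (hl : Measurable l)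
    (hlip : ∀ x y, H.Adj x y → l y ≤ l x + 1) {Δ W : ℕ} (hΔ : 0 < Δ) (hW : 8 ≤ W)
    (hf1 : FinC (rs H {x | l x < W})) (hf2 : FinC (rs H {x | 0 < l x}))
    (hdeg : ∀ x, 0 < l x → l x < W → (H.neighborSet x).ncard ≤ Δ) (hcol : FCol H (Δ + 1))
    (hNB : ∀ D : Finset X, Odd D.card →
        (∀ x ∈ D, 5 ≤ l x ∧ l x + 5 ≤ W ∧ (H.neighborSet x).ncard = Δ) →
        (∀ x ∈ D, ∀ y ∈ D, (rs H (mid l W)).Reachable x y) →
        ¬ ({p : X × X | p.1 ∈ D ∧ p.2 ∉ D ∧ H.Adj p.1 p.2}.ncard + 2 ≤ Δ)) :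
    ∃ L : X → X → Prop, MeasurableSet {p : X × X | L p.1 p.2} ∧ Mat H L ∧
      (∀ x, 5 ≤ l x → l x + 5 ≤ W → (H.neighborSet x).ncard = Δ → ∃ y, L x y) ∧
      FCol (mn H L) Δ := by
  classical
  have hmlt : MeasurableSet {x | l x < W} := measurableSet_lt hl measurable_const
  have hmgt : MeasurableSet {x | 0 < l x} := measurableSet_lt measurable_const hl
  obtain ⟨ci, hci1, hci2⟩ := colC (hH.rs hmlt) (hlf.mono (rs_le _ _)) hf1 (hcol.mono (rs_le _ _))
  obtain ⟨co, hco1, hco2⟩ := colC (hH.rs hmgt) (hlf.mono (rs_le _ _)) hf2 (hcol.mono (rs_le _ _))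
  -- the outer matching
  let L0 : X → X → Prop := fun x y => H.Adj x y ∧
    ((l x ≤ 2 ∧ l y ≤ 2 ∧ ci x y = Δ) ∨ (W ≤ l x + 2 ∧ W ≤ l y + 2 ∧ co x y = Δ))
  have hin : ∀ {x y}, H.Adj x y → l x ≤ 2 → l y ≤ 2 → (rs H {x | l x < W}).Adj x y := by
    intro x y h h1 h2
    exact ⟨h, by show l x < W; omega, by show l y < W; omega⟩
  have hout : ∀ {x y}, H.Adj x y → W ≤ l x + 2 → W ≤ l y + 2 → (rs H {x | 0 < l x}).Adj x y := by
    intro x y h h1 h2
    exact ⟨h, by show 0 < l x; omega, by show 0 < l y; omega⟩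
  have hL0m : MeasurableSet {p : X × X | L0 p.1 p.2} := by
    have hl1 : Measurable fun p : X × X => l p.1 := hl.comp measurable_fst
    have hl2 : Measurable fun p : X × X => l p.2 := hl.comp measurable_snd
    refine MeasurableSet.inter hH (MeasurableSet.union ?_ ?_)
    · exact (measurableSet_le hl1 measurable_const).inter
        ((measurableSet_le hl2 measurable_const).inter
          (measurableSet_eq_fun hci1 measurable_const))
    · exact (measurableSet_le measurable_const (hl1.add_const 2)).inter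
        ((measurableSet_le measurable_const (hl2.add_const 2)).inter
          (measurableSet_eq_fun hco1 measurable_const))
  have hL0s : ∀ x y, L0 x y → L0 y x := by
    rintro x y ⟨h, ⟨h1, h2, h3⟩ | ⟨h1, h2, h3⟩⟩
    · exact ⟨h.symm, Or.inl ⟨h2, h1, by rw [← hci2.symm x y (hin h h1 h2)]; exact h3⟩⟩
    · exact ⟨h.symm, Or.inr ⟨h2, h1, by rw [← hco2.symm x y (hout h h1 h2)]; exact h3⟩⟩
  have hL0u : ∀ x y y', L0 x y → L0 x y' → y = y' := by
    rintro x y y' ⟨h, ⟨h1, h2, h3⟩ | ⟨h1, h2, h3⟩⟩ ⟨h', ⟨h1', h2', h3'⟩ | ⟨h1', h2', h3'⟩⟩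
    · exact hci2.inj x y y' (hin h h1 h2) (hin h' h1' h2') (h3.trans h3'.symm)
    · omega
    · omega
    · exact hco2.inj x y y' (hout h h1 h2) (hout h' h1' h2') (h3.trans h3'.symm)
  let cov : X → Prop := fun x => ∃ y, L0 x y
  obtain ⟨δ, hδm, hδ⟩ := sec_enum H.Adj hH fun x => (hlf x).countable
  have hcovm : MeasurableSet {x | cov x} := ex_meas hδm hL0m fun x y h => hδ x y h.1
  have hcovl : ∀ x, cov x → l x ≤ 2 ∨ W ≤ l x + 2 := by
    rintro x ⟨y, h, ⟨h1, h2, h3⟩ | ⟨h1, h2, h3⟩⟩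
    · exact Or.inl h1
    · exact Or.inr h1
  -- the middle
  set Hm := rs H (mid l W) with hHm
  have hmidm : MeasurableSet (mid l W) := hmgt.inter hmlt
  have hHmB : BG Hm := BG.rs hH hmidm
  have hHmle : Hm ≤ H := rs_le _ _
  have hHmfin : FinC Hm := hf1.mono (rs_mono le_rfl fun x hx => hx.2)
  have hθ : Measurable fun p : X × X => (ind (Hm.Adj p.1 p.2), l p.1, ind (cov p.1)) :=
    (meas_ind hHmB).prodMk ((hl.comp measurable_fst).prodMk
      (meas_ind (P := fun p : X × X => cov p.1) (hcovm.preimage measurable_fst)))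
  obtain ⟨s, hs1, hs2, hs3⟩ := BC (E := Hm.Reachable) (Θ := ℕ × ℕ × ℕ) (reach_equiv Hm)
    (reach_meas hHmB fun x => ((hlf.mono hHmle) x).countable) hHmfin
    (fun x y => (ind (Hm.Adj x y), l x, ind (cov x))) hθ
    (fun n t s => ∃ m : Fin n → Fin n → Prop, Mat (gr fun i j => (t i j).1) m ∧
      (∀ i j, m i j → (t i i).2.2 ≠ 1) ∧
      (∀ i, 5 ≤ (t i i).2.1 → (t i i).2.1 + 5 ≤ W → dg (gr fun i j => (t i j).1) i = Δ →
        ∃ j, m i j) ∧
      (∀ i j, (gr fun i j => (t i j).1).Adj i j → (t i i).2.2 ≠ 1 → (t j j).2.2 ≠ 1 →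
        (∃ b, m i b) ∨ ∃ b, m j b) ∧
      ∀ i j, s i j = 1 ↔ m i j) (by
      intro x n e he hr
      beta_reduce
      show ∃ s : Fin n → Fin n → ℕ, ∃ m : Fin n → Fin n → Prop, Mat (gr fun i j => ind (Hm.Adj (e i) (e j))) m ∧
        (∀ i j, m i j → ind (cov (e i)) ≠ 1) ∧
        (∀ i, 5 ≤ l (e i) → l (e i) + 5 ≤ W →
          dg (gr fun i j => ind (Hm.Adj (e i) (e j))) i = Δ → ∃ j, m i j) ∧
        (∀ i j, (gr fun i j => ind (Hm.Adj (e i) (e j))).Adj i j → ind (cov (e i)) ≠ 1 →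
          ind (cov (e j)) ≠ 1 → (∃ b, m i b) ∨ ∃ b, m j b) ∧
        ∀ i j, s i j = 1 ↔ m i j
      rw [gr_ind]
      set G' := Hm.comap e with hG'
      have hdg : ∀ i, dg G' i ≤ Δ := by
        intro i
        by_cases hi : e i ∈ mid l W
        · exact (dg_comap_le he hHmle hlf i).trans (hdeg _ hi.1 hi.2)
        · have : dg G' i = 0 := by
            unfold dg
            rw [Finset.card_eq_zero, Finset.filter_eq_empty_iff]
            intro j _ hj
            exact hi hj.2.1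
          omega
      let Y : Set (Fin n) := {i | 4 ≤ l (e i) ∧ l (e i) + 4 ≤ W}
      let T : Set (Fin n) := {i | 5 ≤ l (e i) ∧ l (e i) + 5 ≤ W ∧ dg G' i = Δ}
      have hTY : ∀ i ∈ T, ∀ j, G'.Adj i j → (rs G' Y).Adj i j := by
        intro i hi j hij
        have h1 := hlip _ _ hij.1
        have h2 := hlip _ _ hij.1.symm
        have h3 := hi.1
        have h4 := hi.2.1
        refine ⟨hij, ⟨by omega, by omega⟩, ⟨by omega, by omega⟩⟩
      have hdgT : ∀ i ∈ T, dg (rs G' Y) i = Δ := by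
        intro i hi
        rw [← hi.2.2]
        unfold dg
        congr 1
        ext j
        rw [Finset.mem_filter, Finset.mem_filter]
        exact ⟨fun h => ⟨h.1, h.2.1⟩, fun h => ⟨h.1, hTY i hi j h.2⟩⟩
      obtain ⟨m, hm1, hm2⟩ := cover (rs G' Y) T hΔ
        (fun i => (dg_mono (rs_le _ _) i).trans (hdg i)) (by
          intro D hD hDT
          by_contra hlt
          push Not at hlt
          have h1 := bd_parity (rs G' Y) D (fun i hi => hdgT i (hDT i hi)) hD hlt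
          have h2 : bd (rs G' Y) D = bd G' D := by
            rw [bd_eq, bd_eq]
            congr 1
            ext p
            exact ⟨fun h => ⟨h.1, h.2.1, h.2.2.1⟩,
              fun h => ⟨h.1, h.2.1, hTY _ (hDT _ h.1) _ h.2.2⟩⟩
          have hfull : ∀ i ∈ T, ∀ y, H.Adj (e i) y → Hm.Adj (e i) y := by
            intro i hi y hy
            have h3 := hi.1
            have h4 := hi.2.1
            exact mid_adj hlip (by omega) (by omega) hy
          rw [h2, hG', bd_comap he hr hHmle D fun i hi => hfull i (hDT i hi)] at h1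
          refine hNB (D.map ⟨e, he⟩) (by rw [Finset.card_map]; exact hD) ?_ ?_ ?_
          · intro y hy
            obtain ⟨i, hi, rfl⟩ := Finset.mem_map.1 hy
            have h3 := hDT i hi
            refine ⟨h3.1, h3.2.1, ?_⟩
            rw [← h3.2.2]
            exact (dg_comap he hr hHmle i (hfull i h3)).symm
          · intro y hy z hz
            obtain ⟨i, hi, rfl⟩ := Finset.mem_map.1 hy
            obtain ⟨j, hj, rfl⟩ := Finset.mem_map.1 hz
            have h3 : ∀ i, Hm.Reachable x (e i) := by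
              intro i
              have : e i ∈ range e := ⟨i, rfl⟩
              rw [hr] at this
              exact this
            exact (h3 i).symm.trans (h3 j)
          · have h3 : {p : X × X | p.1 ∈ D.map ⟨e, he⟩ ∧ p.2 ∉ D.map ⟨e, he⟩ ∧ H.Adj p.1 p.2} =
                {p : X × X | p.1 ∈ e '' D ∧ p.2 ∉ e '' D ∧ H.Adj p.1 p.2} := by
              have h4 : ∀ z, z ∈ D.map ⟨e, he⟩ ↔ z ∈ e '' D := by
                intro z
                simp
              ext p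
              simp only [Set.mem_ofPred_eq]
              rw [h4, h4]
            rw [h3]
            exact h1)
      have hm1' : Mat G' m := ⟨fun a b h => (hm1.adj a b h).1, hm1.symm, hm1.uniq⟩
      obtain ⟨m', h1, h2, h3, h4⟩ := maxMat hm1' {i | ¬ cov (e i)} (by
        intro a b hab hcova
        have h3 := (hm1.adj a b hab).2.1
        have h4 : 4 ≤ l (e a) := h3.1
        have h5 : l (e a) + 4 ≤ W := h3.2
        rcases hcovl _ hcova with h | h <;> omega)
      refine ⟨fun i j => ind (m' i j), m', h1, ?_, ?_, ?_, fun i j => ind_eq⟩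
      · intro i j hij h5
        exact h3 i j hij (ind_eq.1 h5)
      · intro i h5 h6 h7
        obtain ⟨j, hj⟩ := hm2 i ⟨h5, h6, h7⟩
        exact ⟨j, h2 i j hj⟩
      · intro i j hij h5 h6
        exact h4 i j hij (fun h => h5 (ind_eq.2 h)) (fun h => h6 (ind_eq.2 h)))
  have hE : ∀ x y, s x y = 1 → Hm.Reachable x y := by
    intro x y h
    by_contra h1
    rw [hs2 x y h1] at h
    exact absurd h (by norm_num)
  have hloc : ∀ x, ∃ (n : ℕ) (e : Fin n → X), Function.Injective e ∧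
      range e = {y | Hm.Reachable x y} ∧ ∃ m : Fin n → Fin n → Prop, Mat (Hm.comap e) m ∧
      (∀ i j, m i j → ¬ cov (e i)) ∧
      (∀ i, 5 ≤ l (e i) → l (e i) + 5 ≤ W → dg (Hm.comap e) i = Δ → ∃ j, m i j) ∧
      (∀ i j, (Hm.comap e).Adj i j → ¬ cov (e i) → ¬ cov (e j) → (∃ b, m i b) ∨ ∃ b, m j b) ∧
      ∀ i j, s (e i) (e j) = 1 ↔ m i j := by
    intro x
    obtain ⟨n, e, he, hr, m, h1, h2, h3, h4, h5⟩ := hs3 x
    refine ⟨n, e, he, hr, m, ?_, ?_, ?_, ?_, h5⟩
    · rw [← gr_ind]; exact h1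
    · intro i j hij h
      exact h2 i j hij (ind_eq.2 h)
    · intro i h6 h7 h8
      rw [← gr_ind] at h8
      exact h3 i h6 h7 h8
    · intro i j hij h6 h7
      rw [← gr_ind] at hij
      exact h4 i j hij (fun h => h6 (ind_eq.1 h)) (fun h => h7 (ind_eq.1 h))
  have hsadj : ∀ x y, s x y = 1 → Hm.Adj x y ∧ s y x = 1 ∧ ¬ cov x := by
    intro x y h
    obtain ⟨n, e, he, hr, m, h1, h2, h3, h4, h5⟩ := hloc x
    obtain ⟨i, rfl⟩ : x ∈ range e := by rw [hr]; exact SimpleGraph.Reachable.refl x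
    obtain ⟨j, rfl⟩ : y ∈ range e := by rw [hr]; exact hE _ _ h
    have h6 := (h5 i j).1 h
    exact ⟨h1.adj i j h6, (h5 j i).2 (h1.symm i j h6), h2 i j h6⟩
  have hsuniq : ∀ x y y', s x y = 1 → s x y' = 1 → y = y' := by
    intro x y y' h h'
    obtain ⟨n, e, he, hr, m, h1, h2, h3, h4, h5⟩ := hloc x
    obtain ⟨i, rfl⟩ : x ∈ range e := by rw [hr]; exact SimpleGraph.Reachable.refl x
    obtain ⟨j, rfl⟩ : y ∈ range e := by rw [hr]; exact hE _ _ h
    obtain ⟨j', rfl⟩ : y' ∈ range e := by rw [hr]; exact hE _ _ h'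
    rw [h1.uniq i j j' ((h5 i j).1 h) ((h5 i j').1 h')]
  have hscov : ∀ x, 5 ≤ l x → l x + 5 ≤ W → (H.neighborSet x).ncard = Δ → ∃ y, s x y = 1 := by
    intro x h6 h7 h8
    obtain ⟨n, e, he, hr, m, h1, h2, h3, h4, h5⟩ := hloc x
    obtain ⟨i, rfl⟩ : x ∈ range e := by rw [hr]; exact SimpleGraph.Reachable.refl x
    rw [← dg_comap he hr hHmle i fun y hy => mid_adj hlip (by omega) (by omega) hy] at h8
    obtain ⟨j, hj⟩ := h3 i h6 h7 h8
    exact ⟨e j, (h5 i j).2 hj⟩
  have hsmax : ∀ x y, Hm.Adj x y → ¬ cov x → ¬ cov y → (∃ b, s x b = 1) ∨ ∃ b, s y b = 1 := by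
    intro x y hxy h6 h7
    obtain ⟨n, e, he, hr, m, h1, h2, h3, h4, h5⟩ := hloc x
    obtain ⟨i, rfl⟩ : x ∈ range e := by rw [hr]; exact SimpleGraph.Reachable.refl x
    obtain ⟨j, rfl⟩ : y ∈ range e := by rw [hr]; exact hxy.reachable
    rcases h4 i j hxy h6 h7 with ⟨b, hb⟩ | ⟨b, hb⟩
    · exact Or.inl ⟨e b, (h5 i b).2 hb⟩
    · exact Or.inr ⟨e b, (h5 j b).2 hb⟩
  -- the matching
  let L : X → X → Prop := fun x y => L0 x y ∨ s x y = 1
  have hLs : ∀ x y, L x y → L y x := by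
    rintro x y (h | h)
    · exact Or.inl (hL0s x y h)
    · exact Or.inr (hsadj x y h).2.1
  refine ⟨L, hL0m.union (measurableSet_eq_fun hs1 measurable_const), ⟨?_, hLs, ?_⟩, ?_, ?_⟩
  · rintro x y (h | h)
    · exact h.1
    · exact (hsadj x y h).1.1
  · rintro x y y' (h | h) (h' | h')
    · exact hL0u x y y' h h'
    · exact absurd ⟨y, h⟩ (hsadj x y' h').2.2
    · exact absurd ⟨y', h'⟩ (hsadj x y h).2.2
    · exact hsuniq x y y' h h'
  · intro x h1 h2 h3
    obtain ⟨y, hy⟩ := hscov x h1 h2 h3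
    exact ⟨y, Or.inr hy⟩
  · intro n e he
    set F := (mn H L).comap e with hF
    let F0 : SimpleGraph (Fin n) := ⟨fun i j => F.Adj i j ∧
      ((l (e i) ≤ 2 ∧ l (e j) ≤ 2) ∨ (W ≤ l (e i) + 2 ∧ W ≤ l (e j) + 2)),
      ⟨fun i j h => ⟨h.1.symm, h.2.elim (fun h => Or.inl ⟨h.2, h.1⟩) fun h => Or.inr ⟨h.2, h.1⟩⟩⟩,
      ⟨fun i h => h.1.ne rfl⟩⟩
    have hF0 : EC F0 Δ := by
      refine ⟨fun i j => if l (e i) ≤ 2 then ci (e i) (e j) else co (e i) (e j), ?_, ?_, ?_⟩
      · rintro i j ⟨h, ⟨h1, h2⟩ | ⟨h1, h2⟩⟩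
        · rw [if_pos h1]
          have h3 := hci2.lt _ _ (hin h.1 h1 h2)
          have h4 : ci (e i) (e j) ≠ Δ := fun h4 => h.2.1 (Or.inl ⟨h.1, Or.inl ⟨h1, h2, h4⟩⟩)
          omega
        · rw [if_neg (by omega)]
          have h3 := hco2.lt _ _ (hout h.1 h1 h2)
          have h4 : co (e i) (e j) ≠ Δ := fun h4 => h.2.1 (Or.inl ⟨h.1, Or.inr ⟨h1, h2, h4⟩⟩)
          omega
      · rintro i j ⟨h, ⟨h1, h2⟩ | ⟨h1, h2⟩⟩
        · rw [if_pos h1, if_pos h2]
          exact hci2.symm _ _ (hin h.1 h1 h2)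
        · rw [if_neg (by omega), if_neg (by omega)]
          exact hco2.symm _ _ (hout h.1 h1 h2)
      · rintro i j j' ⟨h, ⟨h1, h2⟩ | ⟨h1, h2⟩⟩ ⟨h', ⟨h1', h2'⟩ | ⟨h1', h2'⟩⟩ heq
        · rw [if_pos h1, if_pos h1] at heq
          exact he (hci2.inj _ _ _ (hin h.1 h1 h2) (hin h'.1 h1' h2') heq)
        · omega
        · omega
        · have h6 : ¬ l (e i) ≤ 2 := by omega
          rw [if_neg h6, if_neg h6] at heq
          exact he (hco2.inj _ _ _ (hout h.1 h1 h2) (hout h'.1 h1' h2') heq)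
    have hlfm : LF (mn H L) := hlf.mono (mn_le _ _)
    have hdegm : ∀ i : Fin n, 0 < l (e i) → l (e i) < W →
        ((mn H L).neighborSet (e i)).ncard ≤ Δ := fun i h1 h2 =>
      (ncard_le_ncard (fun y hy => (mn_le H L hy : H.Adj _ _)) (hlf _)).trans (hdeg _ h1 h2)
    have hnoL : ∀ i : Fin n, 0 < l (e i) → l (e i) < W →
        ((mn H L).neighborSet (e i)).ncard = Δ → ∀ b, ¬ L (e i) b := by
      intro i h1 h2 h3 b hb
      have hbH : H.Adj (e i) b := by
        rcases hb with h | h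
        · exact h.1
        · exact (hsadj _ _ h).1.1
      have h4 : ((mn H L).neighborSet (e i)).ncard < (H.neighborSet (e i)).ncard := by
        refine ncard_lt_ncard ?_ (hlf _)
        refine ⟨fun y hy => (mn_le H L hy : H.Adj _ _), fun hsub => ?_⟩
        have h5 : b ∈ (mn H L).neighborSet (e i) := hsub hbH
        exact h5.2.1 hb
      have := hdeg _ h1 h2
      omega
    refine extT (F0 := F0) (F := F) (fun i j h => h.1) hF0 {i | 2 ≤ l (e i) ∧ l (e i) + 2 ≤ W}
      {i | 0 < l (e i) ∧ l (e i) < W} {i | ((mn H L).neighborSet (e i)).ncard = Δ}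
      {i | 3 ≤ l (e i) ∧ l (e i) + 3 ≤ W} ?_ ?_ ?_ ?_ ?_ ?_ ?_ ?_
    · intro i j hij hij0
      have h1 := hlip _ _ hij.1
      have h2 := hlip _ _ hij.1.symm
      constructor
      · by_contra h3
        exact hij0 ⟨hij, Or.inl ⟨by omega, by omega⟩⟩
      · by_contra h3
        exact hij0 ⟨hij, Or.inr ⟨by omega, by omega⟩⟩
    · intro i j hi hij
      have h1 := hlip _ _ hij.1
      have h2 := hlip _ _ hij.1.symm
      have h3 : 2 ≤ l (e i) := hi.1
      have h4 : l (e i) + 2 ≤ W := hi.2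
      exact ⟨by omega, by omega⟩
    · intro i hi
      have h3 : 2 ≤ l (e i) := hi.1
      have h4 : l (e i) + 2 ≤ W := hi.2
      exact ⟨by omega, by omega⟩
    · intro i hi
      exact (dg_comap_le he le_rfl hlfm i).trans (hdegm i hi.1 hi.2)
    · intro i hi hiQ
      have h1 := dg_comap_le he le_rfl hlfm i
      have h2 := hdegm i hi.1 hi.2
      have h3 : ((mn H L).neighborSet (e i)).ncard ≠ Δ := hiQ
      have h4 : dg F i ≤ ((mn H L).neighborSet (e i)).ncard := h1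
      omega
    · intro i j hij hiQ hiR hjR hjQ
      have h1 := hnoL i hiR.1 hiR.2 hiQ
      have h2 := hnoL j hjR.1 hjR.2 hjQ
      have h3 : Hm.Adj (e i) (e j) := ⟨hij.1, hiR, hjR⟩
      rcases hsmax _ _ h3 (fun ⟨b, hb⟩ => h1 b (Or.inl hb)) (fun ⟨b, hb⟩ => h2 b (Or.inl hb)) with
        ⟨b, hb⟩ | ⟨b, hb⟩
      · exact h1 b (Or.inr hb)
      · exact h2 b (Or.inr hb)
    · intro i j hij hij0
      have h1 := hlip _ _ hij.1
      have h2 := hlip _ _ hij.1.symm
      by_contra hcon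
      push Not at hcon
      have h3 : ¬ (3 ≤ l (e i) ∧ l (e i) + 3 ≤ W) := hcon.1
      have h4 : ¬ (3 ≤ l (e j) ∧ l (e j) + 3 ≤ W) := hcon.2
      apply hij0
      refine ⟨hij, ?_⟩
      by_cases h5 : l (e i) ≤ 2
      · left
        refine ⟨h5, ?_⟩
        omega
      · right
        refine ⟨by omega, by omega⟩
    · rintro i ⟨h1, h2⟩ j ⟨-, ⟨h3, -⟩ | ⟨h3, -⟩⟩
      · omega
      · omega

end Run7.h932
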