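import Pool.Agent.Run7.h932.Main

/-!
# The extension property for small boundary
-/

set_option autoImplicit false

namespace Run7.h932

open SimpleGraph Finset Pool.Q11.TwoEnd Pool.Q6.CI

section

variable {V : Type} [Fintype V]

/-- Berge and Fournier: an independent core -/
theorem berge (F : SimpleGraph V) {n : ℕ} (h3 : ∀ v, dg F v ≤ n)
    (h4 : ∀ x y, F.Adj x y → dg F x = n → dg F y = n → False) : EC F n := by
  classical
  refine extT (F0 := ⊥) bot_le ?_ Set.univ Set.univ {v | dg F v = n} Set.univ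
    (fun _ _ _ _ => trivial) (fun _ _ _ _ => trivial) (fun _ _ => trivial) (fun v _ => h3 v)
    (fun v _ hv => lt_of_le_of_ne (h3 v) hv) (fun x y hxy hx _ _ hy => h4 x y hxy hx hy)
    (fun _ _ _ _ => Or.inl trivial) (fun _ _ _ h => h)
  exact ⟨fun _ _ => 0, ⟨fun _ _ h => absurd h id, fun _ _ _ => rfl, fun _ _ _ h => absurd h id⟩⟩

end

/-- recolouring by an injective map of the colours -/
theorem PC.map {V : Type} {F : SimpleGraph V} {n k : ℕ} {c : V → V → ℕ} (hc : PC F n c)
    (f : ℕ → ℕ)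
    (hf : ∀ a < n, f a < k) (hf' : ∀ a < n, ∀ b < n, f a = f b → a = b) :
    PC F k (fun v w => f (c v w)) :=
  ⟨fun v w h => hf _ (hc.lt v w h), fun v w h => by rw [hc.symm v w h],
    fun v w w' h h' he => hc.inj v w w' h h' (hf' _ (hc.lt v w h) _ (hc.lt v w' h') he)⟩

/-- one more vertex, joined to the vertices of `S` -/
def star {V : Type} (K : SimpleGraph V) (S : Set V) : SimpleGraph (Option V) where
  Adj x y := (∃ v w, x = some v ∧ y = some w ∧ K.Adj v w) ∨ (∃ v ∈ S, x = some v ∧ y = none) ∨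
    ∃ v ∈ S, x = none ∧ y = some v
  symm := ⟨by
    rintro x y (⟨v, w, rfl, rfl, h⟩ | ⟨v, h, rfl, rfl⟩ | ⟨v, h, rfl, rfl⟩)
    · exact Or.inl ⟨w, v, rfl, rfl, h.symm⟩
    · exact Or.inr (Or.inr ⟨v, h, rfl, rfl⟩)
    · exact Or.inr (Or.inl ⟨v, h, rfl, rfl⟩)⟩
  loopless := ⟨by
    rintro x (⟨v, w, rfl, h2, h⟩ | ⟨v, h, rfl, h2⟩ | ⟨v, h, rfl, h2⟩)
    · exact h.ne (Option.some_injective _ h2)
    · exact absurd h2 (by simp)
    · exact absurd h2 (by simp)⟩

theorem star_ss {V : Type} {K : SimpleGraph V} {S : Set V} {v w : V} :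
    (star K S).Adj (some v) (some w) ↔ K.Adj v w := by
  simp [star]

theorem star_sn {V : Type} {K : SimpleGraph V} {S : Set V} {v : V} :
    (star K S).Adj (some v) none ↔ v ∈ S := by
  simp [star]

theorem star_ns {V : Type} {K : SimpleGraph V} {S : Set V} {v : V} :
    (star K S).Adj none (some v) ↔ v ∈ S := by
  simp [star]

section

variable {V : Type} [Fintype V]

theorem dg_lt {G G' : SimpleGraph V} (h : G ≤ G') {x y : V} (hxy : G'.Adj x y)
    (h' : ¬ G.Adj x y) : dg G x < dg G' x := by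
  classical
  unfold dg
  apply card_lt_card
  refine ⟨fun w hw => ?_, fun hsub => ?_⟩
  · rw [mem_filter] at hw ⊢
    exact ⟨hw.1, h hw.2⟩
  · have h7 : y ∈ univ.filter fun w => G'.Adj x w := mem_filter.2 ⟨mem_univ _, hxy⟩
    exact h' (mem_filter.1 (hsub h7)).2

open Classical in
theorem dg_star_some (K : SimpleGraph V) (S : Set V) (v : V) :
    dg (star K S) (some v) = dg K v + if v ∈ S then 1 else 0 := by
  unfold dg
  rw [card_filter, card_filter, Fintype.sum_option, add_comm]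
  simp only [star_ss, star_sn]

theorem dg_star_none (K : SimpleGraph V) (S : Set V) {k : ℕ}
    (h : ∀ T : Finset V, (∀ v ∈ T, v ∈ S) → T.card ≤ k) : dg (star K S) none ≤ k := by
  classical
  have h1 : dg (star K S) none = (univ.filter fun v => v ∈ S).card := by
    unfold dg
    rw [card_filter, card_filter, Fintype.sum_option]
    simp only [star_ns]
    simp [star]
  rw [h1]
  exact h _ fun v hv => (mem_filter.1 hv).2

end

/-- one colour at least twice, and at most one further boundary edge -/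
theorem caseA {n Δ : ℕ} (K : SimpleGraph (Fin n)) (Φ : Fin n → Finset ℕ)
    (hΦ : ∀ i, Φ i ⊆ Finset.range (Δ + 1)) (hdeg : ∀ i, dg K i + (Φ i).card ≤ Δ)
    (a : ℕ) (ha : a ≤ Δ) (hΔ : 2 ≤ Δ) (v0 : Fin n) (b : ℕ)
    (h : ∀ v, ∀ t ∈ Φ v, t = a ∨ (t = b ∧ v = v0)) :
    ∃ c : Fin n → Fin n → ℕ, PC K (Δ + 1) c ∧ ∀ i j, K.Adj i j → c i j ∉ Φ i := by
  classical
  obtain ⟨m, hm, -, hmU, hmax⟩ := maxMat (G := K) (m := fun _ _ => False)
    ⟨fun _ _ h => h.elim, fun _ _ h => h, fun _ _ _ h => h.elim⟩ {v | a ∉ Φ v}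
    (fun _ _ h => h.elim)
  have hmU' : ∀ x y, m x y → a ∉ Φ x := fun x y h => hmU x y h
  -- the graph without the matching
  let K1 : SimpleGraph (Fin n) := ⟨fun x y => K.Adj x y ∧ ¬ m x y,
    ⟨fun x y h => ⟨h.1.symm, fun h' => h.2 (hm.symm _ _ h')⟩⟩, ⟨fun x h => h.1.ne rfl⟩⟩
  have hK1 : K1 ≤ K := fun x y h => h.1
  have hK1d : ∀ x y, m x y → dg K1 x < dg K x :=
    fun x y hxy => dg_lt hK1 (hm.adj _ _ hxy) fun h => h.2 hxy
  let S : Set (Fin n) := {v | v = v0 ∧ b ∈ Φ v ∧ b ≠ a}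
  have hS : ∀ v ∈ S, dg K v + 1 ≤ Δ := by
    rintro v ⟨-, h2, -⟩
    have := hdeg v
    have h3 : 0 < (Φ v).card := card_pos.2 ⟨b, h2⟩
    omega
  have hSa : ∀ v ∈ S, a ∈ Φ v → dg K v + 2 ≤ Δ := by
    rintro v ⟨-, h2, h4⟩ h3
    have := hdeg v
    have h5 : ({a, b} : Finset ℕ) ⊆ Φ v := by
      intro t ht
      rw [mem_insert, mem_singleton] at ht
      rcases ht with rfl | rfl
      · exact h3
      · exact h2
    have h6 := card_le_card h5
    rw [card_pair (Ne.symm h4)] at h6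
    omega
  have hSn : dg (star K1 S) none ≤ 1 := by
    refine dg_star_none _ _ fun T hT => ?_
    rw [card_le_one]
    intro x hx y hy
    rw [(hT x hx).1, (hT y hy).1]
  have hKs : ∀ v, dg (star K1 S) (some v) ≤ Δ ∧ (dg (star K1 S) (some v) = Δ → a ∉ Φ v ∧
      ¬ ∃ y, m v y) := by
    intro v
    rw [dg_star_some]
    have h1 := dg_mono hK1 v
    have h2 := hdeg v
    by_cases hv : v ∈ S
    · rw [if_pos hv]
      have h3 := hS v hv
      refine ⟨by omega, fun h4 => ⟨fun h5 => ?_, ?_⟩⟩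
      · have := hSa v hv h5
        omega
      · rintro ⟨y, hy⟩
        have := hK1d v y hy
        omega
    · rw [if_neg hv]
      refine ⟨by omega, fun h4 => ⟨fun h5 => ?_, ?_⟩⟩
      · have : 0 < (Φ v).card := card_pos.2 ⟨a, h5⟩
        omega
      · rintro ⟨y, hy⟩
        have := hK1d v y hy
        omega
  obtain ⟨c, hc⟩ : EC (star K1 S) Δ := by
    refine berge _ ?_ ?_
    · rintro (_ | v)
      · exact hSn.trans (by omega)
      · exact (hKs v).1
    · rintro (_ | v) (_ | w) hvw hv hw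
      · exact hvw.ne rfl
      · omega
      · omega
      · rw [star_ss] at hvw
        obtain ⟨h1, h2⟩ := (hKs v).2 hv
        obtain ⟨h3, h4⟩ := (hKs w).2 hw
        rcases hmax v w hvw.1 h1 h3 with h5 | h5
        · exact h2 h5
        · exact h4 h5
  -- the colours
  let f1 : ℕ → ℕ := fun t => if t = a then Δ else t
  have hf1 : ∀ t < Δ, f1 t < Δ + 1 ∧ f1 t ≠ a := by
    intro t ht
    show (if t = a then Δ else t) < Δ + 1 ∧ (if t = a then Δ else t) ≠ a
    split_ifs with h1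
    · exact ⟨by omega, by omega⟩
    · exact ⟨by omega, h1⟩
  have hf1i : ∀ t < Δ, ∀ u < Δ, f1 t = f1 u → t = u := by
    intro t ht u hu
    show (if t = a then Δ else t) = (if u = a then Δ else u) → t = u
    split_ifs <;> omega
  let g := f1 (c (some v0) none)
  let f : ℕ → ℕ := fun t => if b ∈ Φ v0 ∧ b ≠ a then Equiv.swap g b (f1 t) else f1 t
  have hb : b ∈ Φ v0 → b < Δ + 1 := fun h => mem_range.1 (hΦ v0 h)
  have hgS : b ∈ Φ v0 ∧ b ≠ a → v0 ∈ S := fun h => ⟨rfl, h⟩
  have hg : b ∈ Φ v0 ∧ b ≠ a → g < Δ + 1 ∧ g ≠ a := by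
    intro h
    exact hf1 _ (hc.lt _ _ (star_sn.2 (hgS h)))
  have hf : ∀ t < Δ, f t < Δ + 1 ∧ f t ≠ a := by
    intro t ht
    obtain ⟨h1, h2⟩ := hf1 t ht
    show (if b ∈ Φ v0 ∧ b ≠ a then Equiv.swap g b (f1 t) else f1 t) < Δ + 1 ∧
      (if b ∈ Φ v0 ∧ b ≠ a then Equiv.swap g b (f1 t) else f1 t) ≠ a
    split_ifs with h3
    · obtain ⟨h4, h5⟩ := hg h3
      have h6 := hb h3.1
      rw [Equiv.swap_apply_def]
      split_ifs
      · exact ⟨h6, h3.2⟩
      · exact ⟨h4, h5⟩
      · exact ⟨h1, h2⟩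
    · exact ⟨h1, h2⟩
  have hfi : ∀ t < Δ, ∀ u < Δ, f t = f u → t = u := by
    intro t ht u hu
    show (if b ∈ Φ v0 ∧ b ≠ a then Equiv.swap g b (f1 t) else f1 t) =
      (if b ∈ Φ v0 ∧ b ≠ a then Equiv.swap g b (f1 u) else f1 u) → t = u
    split_ifs with h3
    · intro h
      exact hf1i t ht u hu ((Equiv.swap g b).injective h)
    · exact hf1i t ht u hu
  refine ⟨fun x y => if m x y then a else f (c (some x) (some y)), ⟨?_, ?_, ?_⟩, ?_⟩
  · intro x y hxy
    show (if m x y then a else f (c (some x) (some y))) < Δ + 1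
    split_ifs with h1
    · omega
    · exact (hf _ (hc.lt _ _ (star_ss.2 ⟨hxy, h1⟩))).1
  · intro x y hxy
    by_cases h1 : m x y
    · rw [if_pos h1, if_pos (hm.symm _ _ h1)]
    · rw [if_neg h1, if_neg fun h => h1 (hm.symm _ _ h), hc.symm _ _ (star_ss.2 ⟨hxy, h1⟩)]
  · intro x y z hxy hxz
    show (if m x y then a else f (c (some x) (some y))) =
      (if m x z then a else f (c (some x) (some z))) → y = z
    split_ifs with h1 h2 h2
    · exact fun _ => hm.uniq _ _ _ h1 h2
    · intro h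
      exact absurd h.symm (hf _ (hc.lt _ _ (star_ss.2 ⟨hxz, h2⟩))).2
    · intro h
      exact absurd h (hf _ (hc.lt _ _ (star_ss.2 ⟨hxy, h1⟩))).2
    · intro h
      have h3 := hfi _ (hc.lt _ _ (star_ss.2 ⟨hxy, h1⟩)) _ (hc.lt _ _ (star_ss.2 ⟨hxz, h2⟩)) h
      exact Option.some_injective _ (hc.inj _ _ _ (star_ss.2 ⟨hxy, h1⟩) (star_ss.2 ⟨hxz, h2⟩) h3)
  · intro x y hxy
    show (if m x y then a else f (c (some x) (some y))) ∉ Φ x
    split_ifs with h1
    · exact hmU' x y h1
    · intro hin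
      have h2 := hf _ (hc.lt _ _ (star_ss.2 ⟨hxy, h1⟩))
      rcases h x _ hin with h3 | ⟨h3, rfl⟩
      · exact h2.2 h3
      · rw [h3] at hin
        have hba : b ≠ a := fun h4 => h2.2 (h3.trans h4)
        have h5 : f (c (some x) none) = b := by
          show (if b ∈ Φ x ∧ b ≠ a then Equiv.swap g b (f1 (c (some x) none)) else _) = b
          rw [if_pos ⟨hin, hba⟩]
          exact Equiv.swap_apply_left _ _
        have h6 : (star K1 S).Adj (some x) none := star_sn.2 (hgS ⟨hin, hba⟩)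
        have h7 := hfi _ (hc.lt _ _ (star_ss.2 ⟨hxy, h1⟩)) _ (hc.lt _ _ h6) (h3.trans h5.symm)
        have h8 := hc.inj _ _ _ (star_ss.2 ⟨hxy, h1⟩) h6 h7
        exact absurd h8 (by simp)

/-- all the boundary colours distinct, and at most three of them -/
theorem caseB {n Δ : ℕ} (K : SimpleGraph (Fin n)) (Φ : Fin n → Finset ℕ)
    (hΦ : ∀ i, Φ i ⊆ Finset.range (Δ + 1)) (hdeg : ∀ i, dg K i + (Φ i).card ≤ Δ)
    (hsum : ∑ i, (Φ i).card ≤ 3) (hsum' : ∑ i, (Φ i).card ≤ Δ)
    (h : ∀ v w, ∀ t ∈ Φ v, t ∈ Φ w → v = w) :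
    ∃ c : Fin n → Fin n → ℕ, PC K (Δ + 1) c ∧ ∀ i j, K.Adj i j → c i j ∉ Φ i := by
  classical
  obtain ⟨c, hc⟩ : EC (star K {v | (Φ v).Nonempty}) (Δ + 1) := by
    refine vizing ?_
    rintro (_ | v)
    · refine dg_star_none _ _ fun T hT => ?_
      calc T.card = ∑ v ∈ T, 1 := by simp
        _ ≤ ∑ v ∈ T, (Φ v).card := Finset.sum_le_sum fun v hv => card_pos.2 (hT v hv)
        _ ≤ ∑ v, (Φ v).card := Finset.sum_le_sum_of_subset (subset_univ _)
        _ ≤ Δ := hsum'
    · rw [dg_star_some]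
      have h1 := hdeg v
      split_ifs with h2
      · have := card_pos.2 h2
        omega
      · omega
  -- the missing colours at a vertex
  let MS : Fin n → Finset ℕ := fun v => (Finset.range (Δ + 1)).filter fun t =>
    ∀ w, K.Adj v w → c (some v) (some w) ≠ t
  have hMS : ∀ v, (Φ v).card + 1 ≤ (MS v).card := by
    intro v
    have h1 : (Finset.range (Δ + 1)) \ MS v ⊆
        (univ.filter fun w => K.Adj v w).image fun w => c (some v) (some w) := by
      intro t ht
      rw [mem_sdiff, mem_filter, not_and] at ht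
      have h2 := ht.2 ht.1
      push Not at h2
      obtain ⟨w, hw1, hw2⟩ := h2
      exact mem_image.2 ⟨w, mem_filter.2 ⟨mem_univ _, hw1⟩, hw2⟩
    have h2 := (card_le_card h1).trans card_image_le
    have h3 : (univ.filter fun w => K.Adj v w).card = dg K v := by
      unfold dg
      congr
    have h4 := card_sdiff_add_card_eq_card
      (filter_subset (fun t => ∀ w, K.Adj v w → c (some v) (some w) ≠ t) (Finset.range (Δ + 1)))
    have h5 := hdeg v
    rw [card_range] at h4
    change (Finset.range (Δ + 1) \ MS v).card + (MS v).card = Δ + 1 at h4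
    omega
  have hMS' : ∀ v, (Φ v).Nonempty → c (some v) none ∈ MS v := by
    intro v hv
    have h1 : (star K {v | (Φ v).Nonempty}).Adj (some v) none := star_sn.2 hv
    refine mem_filter.2 ⟨mem_range.2 (hc.lt _ _ h1), fun w hw he => ?_⟩
    have := hc.inj _ _ _ (star_ss.2 hw) h1 he
    exact absurd this (by simp)
  -- Hall
  let ι := {p : Fin n × ℕ // p.2 ∈ Φ p.1}
  have hHall : ∀ S : Finset ι, S.card ≤ (S.biUnion fun p => MS p.1.1).card := by
    intro S
    let W := S.image fun p => p.1.1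
    have hW1 : ∀ w ∈ W, (Φ w).Nonempty := by
      intro w hw
      obtain ⟨p, hp, rfl⟩ := mem_image.1 hw
      exact ⟨_, p.2⟩
    have hSle : S.card ≤ ∑ w ∈ W, (Φ w).card := by
      rw [← card_sigma]
      refine card_le_card_of_injOn (fun p => (⟨p.1.1, p.1.2⟩ : Σ _ : Fin n, ℕ)) ?_ ?_
      · intro p hp
        exact mem_coe.2 (mem_sigma.2 ⟨mem_image_of_mem _ (mem_coe.1 hp), p.2⟩)
      · rintro ⟨⟨p, q⟩, hpq⟩ - ⟨⟨p', q'⟩, hpq'⟩ - h1
        simp only [Sigma.mk.injEq, heq_eq_eq] at h1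
        obtain ⟨rfl, rfl⟩ := h1
        rfl
    have hWle : W.card ≤ (S.biUnion fun p => MS p.1.1).card := by
      refine card_le_card_of_injOn (fun w => c (some w) none) ?_ ?_
      · intro w hw
        obtain ⟨p, hp, rfl⟩ := mem_image.1 (mem_coe.1 hw)
        exact mem_coe.2 (mem_biUnion.2 ⟨p, hp, hMS' _ (hW1 _ (mem_coe.1 hw))⟩)
      · intro w hw w' hw' h1
        have h2 : (star K {v | (Φ v).Nonempty}).Adj (some w) none := star_sn.2 (hW1 _ (mem_coe.1 hw))
        have h3 : (star K {v | (Φ v).Nonempty}).Adj (some w') none :=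
          star_sn.2 (hW1 _ (mem_coe.1 hw'))
        have h4 : c (some w) none = c (some w') none := h1
        rw [hc.symm _ _ h2, hc.symm _ _ h3] at h4
        exact Option.some_injective _ (hc.inj _ _ _ h2.symm h3.symm h4)
    have hsumW : ∑ w ∈ W, (Φ w).card ≤ 3 :=
      (Finset.sum_le_sum_of_subset (subset_univ _)).trans hsum
    by_cases h1 : ∃ w ∈ W, 2 ≤ (Φ w).card
    · obtain ⟨w, hw, hw2⟩ := h1
      obtain ⟨p, hp, rfl⟩ := mem_image.1 hw
      have h2 := hMS p.1.1
      have h3 : (MS p.1.1).card ≤ (S.biUnion fun p => MS p.1.1).card :=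
        card_le_card fun t ht => mem_biUnion.2 ⟨p, hp, ht⟩
      omega
    · push Not at h1
      have h2 : ∑ w ∈ W, (Φ w).card ≤ ∑ w ∈ W, 1 := Finset.sum_le_sum fun w hw => by
        have := h1 w hw
        omega
      simp only [sum_const, smul_eq_mul, mul_one] at h2
      omega
  obtain ⟨τ, hτ, hτM⟩ := (all_card_le_biUnion_card_iff_exists_injective _).1 hHall
  -- the permutation
  have hτr : ∀ p, τ p < Δ + 1 := fun p => mem_range.1 (mem_filter.1 (hτM p)).1
  let S : Finset (Fin (Δ + 1)) := univ.filter fun t => ∃ p, τ p = t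
  let g0 : Fin (Δ + 1) → ℕ := fun t => if h : ∃ p, τ p = t then h.choose.1.2 else 0
  have hg0 : ∀ p, g0 ⟨τ p, hτr p⟩ = p.1.2 := by
    intro p
    have h1 : ∃ q, τ q = (⟨τ p, hτr p⟩ : Fin (Δ + 1)) := ⟨p, rfl⟩
    show (if h : ∃ q, τ q = (⟨τ p, hτr p⟩ : Fin (Δ + 1)) then h.choose.1.2 else 0) = p.1.2
    rw [dif_pos h1, hτ h1.choose_spec]
  obtain ⟨g, hg⟩ := exists_equiv_extend_of_card_eq (α := Fin (Δ + 1)) (t := Finset.range (Δ + 1))
    (by simp) (s := S) (f := g0) (by
      intro t ht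
      obtain ⟨q, hq, rfl⟩ := mem_image.1 ht
      obtain ⟨p, hp⟩ := (mem_filter.1 hq).2
      have h1 : q = ⟨τ p, hτr p⟩ := Fin.ext hp.symm
      rw [h1, hg0]
      exact hΦ _ p.2) (by
      intro t ht u hu htu
      obtain ⟨p, hp⟩ := (mem_filter.1 (mem_coe.1 ht)).2
      obtain ⟨q, hq⟩ := (mem_filter.1 (mem_coe.1 hu)).2
      have h1 : t = ⟨τ p, hτr p⟩ := Fin.ext hp.symm
      have h2 : u = ⟨τ q, hτr q⟩ := Fin.ext hq.symm
      rw [h1, h2, hg0, hg0] at htu
      have h3 : p = q := by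
        have h4 : p.1.1 = q.1.1 := h _ _ _ p.2 (htu ▸ q.2)
        exact Subtype.ext (Prod.ext h4 htu)
      rw [h1, h2, h3])
  have hgτ : ∀ p, (g ⟨τ p, hτr p⟩ : ℕ) = p.1.2 := by
    intro p
    rw [hg _ (mem_filter.2 ⟨mem_univ _, p, rfl⟩), hg0]
  let f : ℕ → ℕ := fun t => if h : t < Δ + 1 then (g ⟨t, h⟩ : ℕ) else 0
  have hf : ∀ (t : ℕ) (h : t < Δ + 1), f t = (g ⟨t, h⟩ : ℕ) := fun t h => dif_pos h
  have hf1 : ∀ t < Δ + 1, f t < Δ + 1 := by
    intro t ht
    rw [hf t ht]
    exact mem_range.1 (g ⟨t, ht⟩).2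
  have hf2 : ∀ t < Δ + 1, ∀ u < Δ + 1, f t = f u → t = u := by
    intro t ht u hu h1
    rw [hf t ht, hf u hu] at h1
    have h2 := g.injective (Subtype.ext h1)
    exact congrArg Fin.val h2
  have hK : PC K (Δ + 1) (fun v w => c (some v) (some w)) :=
    ⟨fun v w h => hc.lt _ _ (star_ss.2 h), fun v w h => hc.symm _ _ (star_ss.2 h),
      fun v w w' h h' he => Option.some_injective _
        (hc.inj _ _ _ (star_ss.2 h) (star_ss.2 h') he)⟩
  refine ⟨_, PC.map hK f hf1 hf2, ?_⟩
  intro v w hvw hin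
  have h1 := hτM ⟨(v, f (c (some v) (some w))), hin⟩
  have h2 := hgτ ⟨(v, f (c (some v) (some w))), hin⟩
  rw [← hf] at h2
  have h3 := hf2 _ (hτr _) _ (hK.lt v w hvw) h2
  exact (mem_filter.1 h1).2 w hvw h3.symm

/-- **The extension property up to degree five.** -/
theorem lemP_small (Δ : ℕ) (hΔ : Δ ≤ 5) : LemP Δ := by
  classical
  intro n K Φ hΦ hdeg hsum
  by_cases h : ∀ v w, ∀ t ∈ Φ v, t ∈ Φ w → v = w
  · exact caseB K Φ hΦ hdeg (by omega) (by omega) h
  · push Not at h
    obtain ⟨x, y, a, hax, hay, hxy⟩ := h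
    have hpair : 2 ≤ (univ.filter fun i => a ∈ Φ i).card := by
      have h1 : ({x, y} : Finset (Fin n)) ⊆ univ.filter fun i => a ∈ Φ i := by
        intro t ht
        rw [mem_insert, mem_singleton] at ht
        rcases ht with rfl | rfl
        · exact mem_filter.2 ⟨mem_univ _, hax⟩
        · exact mem_filter.2 ⟨mem_univ _, hay⟩
      have := card_le_card h1
      rwa [card_pair hxy] at this
    have hsplit : ∑ i, ((Φ i).erase a).card + (univ.filter fun i => a ∈ Φ i).card
        = ∑ i, (Φ i).card := by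
      rw [card_filter, ← Finset.sum_add_distrib]
      refine Finset.sum_congr rfl fun i _ => ?_
      by_cases h1 : a ∈ Φ i
      · rw [if_pos h1, card_erase_add_one h1]
      · rw [if_neg h1, erase_eq_of_notMem h1, add_zero]
    have hrest : ∑ i, ((Φ i).erase a).card ≤ 1 := by omega
    have hale : a ≤ Δ := by
      have := mem_range.1 (hΦ x hax)
      omega
    by_cases h2 : ∃ v b, b ∈ (Φ v).erase a
    · obtain ⟨v0, b, hb⟩ := h2
      refine caseA K Φ hΦ hdeg a hale (by omega) v0 b fun v t ht => ?_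
      by_cases hta : t = a
      · exact Or.inl hta
      · right
        have h3 : t ∈ (Φ v).erase a := mem_erase.2 ⟨hta, ht⟩
        by_contra hcon
        have h4 : 2 ≤ ∑ i, ((Φ i).erase a).card := by
          by_cases hv : v = v0
          · subst hv
            have h5 : ({t, b} : Finset ℕ) ⊆ (Φ v).erase a := by
              intro u hu
              rw [mem_insert, mem_singleton] at hu
              rcases hu with rfl | rfl
              · exact h3
              · exact hb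
            have h6 := card_le_card h5
            rw [card_pair fun h => hcon ⟨h, rfl⟩] at h6
            exact h6.trans (Finset.single_le_sum (f := fun i => ((Φ i).erase a).card)
              (fun i _ => Nat.zero_le _) (mem_univ v))
          · have h5 : ∑ i ∈ ({v, v0} : Finset (Fin n)), ((Φ i).erase a).card ≤
                ∑ i, ((Φ i).erase a).card := Finset.sum_le_sum_of_subset (subset_univ _)
            rw [sum_pair hv] at h5
            have h6 := card_pos.2 ⟨t, h3⟩
            have h7 := card_pos.2 ⟨b, hb⟩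
            omega
        omega
    · push Not at h2
      refine caseA K Φ hΦ hdeg a hale (by omega) x a fun v t ht => ?_
      by_cases hta : t = a
      · exact Or.inl hta
      · exact absurd (mem_erase.2 ⟨hta, ht⟩) (h2 v t)

end Run7.h932
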